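import Pool.Agent.H58.MinusOne.Defs

namespace Pool.Agent.H58.MinusOne
open MvPolynomial Submodule

theorem exists_basis {n m : ℕ} (q : Fin m → Vec n) (hq : LinearIndependent ℂ q) :
    ∃ (κ : Type) (_ : Fintype κ) (b : Module.Basis (Fin m ⊕ κ) ℂ (Vec n)),
      (∀ i, b (Sum.inl i) = q i) ∧ Fintype.card κ + m = n + 1 := by
  classical
  set b := Module.Basis.sumExtend hq with hb
  have : Finite (Fin m ⊕ Module.Basis.sumExtendIndex hq) := Module.Finite.finite_basis b
  have : Finite (Module.Basis.sumExtendIndex hq) :=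
    Finite.of_injective (Sum.inr : _ → Fin m ⊕ _) Sum.inr_injective
  have := Fintype.ofFinite (Module.Basis.sumExtendIndex hq)
  refine ⟨Module.Basis.sumExtendIndex hq, inferInstance, b, ?_, ?_⟩
  · intro i
    simp only [hb, Module.Basis.sumExtend, Module.Basis.reindex_apply,
      Module.Basis.extend_apply_self]
    exact congrArg Subtype.val (@Equiv.Set.sumDiffSubset_apply_inl _ _ _
      (hq.linearIndepOn_id.subset_extend _) (Classical.decPred _)
      (Equiv.ofInjective q hq.injective i))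
  · have h1 := Module.finrank_eq_card_basis b
    rw [Module.finrank_fin_fun, Fintype.card_sum, Fintype.card_fin] at h1
    omega

/-- directional derivative of a polynomial -/
noncomputable def D (q : Poly2) (x u : Fin 2 → ℂ) : ℂ := ∑ k, u k * eval x (pderiv k q)

theorem D_add (q r : Poly2) (x u) : D (q + r) x u = D q x u + D r x u := by
  simp [D, mul_add, Finset.sum_add_distrib]

theorem D_neg (q : Poly2) (x u) : D (-q) x u = - D q x u := by
  simp [D]

theorem D_sub (q r : Poly2) (x u) : D (q - r) x u = D q x u - D r x u := by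
  rw [sub_eq_add_neg, D_add, D_neg, sub_eq_add_neg]

theorem D_mul (q r : Poly2) (x u) : D (q * r) x u = D q x u * eval x r + eval x q * D r x u := by
  simp only [D, Fin.sum_univ_two, Derivation.leibniz, smul_eq_mul, map_add, map_mul]
  ring

theorem D_C (a : ℂ) (x u) : D (C a) x u = 0 := by
  simp [D]

theorem D_X0 (x u) : D (X 0) x u = u 0 := by
  simp [D, Fin.sum_univ_two, pderiv_X]

theorem D_X1 (x u) : D (X 1) x u = u 1 := by
  simp [D, Fin.sum_univ_two, pderiv_X]

theorem D_X0_pow (m : ℕ) (x u) : D (X 0 ^ (m + 1)) x u = (m + 1) * x 0 ^ m * u 0 := by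
  induction m with
  | zero => simp [D_X0]
  | succ m ih =>
    rw [pow_succ, D_mul, ih, D_X0]
    simp only [map_pow, eval_X]
    push_cast
    ring

theorem D_X1_pow (m : ℕ) (x u) : D (X 1 ^ (m + 1)) x u = (m + 1) * x 1 ^ m * u 1 := by
  induction m with
  | zero => simp [D_X1]
  | succ m ih =>
    rw [pow_succ, D_mul, ih, D_X1]
    simp only [map_pow, eval_X]
    push_cast
    ring

/-- scalar polynomial times constant vector -/
noncomputable def sv {n : ℕ} (q : Poly2) (u : Vec n) : Fin (n + 1) → Poly2 := fun j => q * C (u j)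

/-- polynomial covector -/
noncomputable def cv {n : ℕ} (q : Poly2) (l : Vec n →ₗ[ℂ] ℂ) : Fin (n + 1) → Poly2 :=
  fun j => q * C (l (Pi.single j 1))

variable {n : ℕ}

theorem val_add (F G : Fin (n + 1) → Poly2) (x) : val (F + G) x = val F x + val G x := by
  funext j; simp [val]

theorem val_zero (x) : val (0 : Fin (n + 1) → Poly2) x = 0 := by
  funext j; simp [val]

theorem val_sv (q : Poly2) (u : Vec n) (x) : val (sv q u) x = eval x q • u := by
  funext j; simp [val, sv]

theorem der_add (F G : Fin (n + 1) → Poly2) (x u) : der (F + G) x u = der F x u + der G x u := by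
  funext j
  simp [der, mul_add, Finset.sum_add_distrib]

theorem der_sv (q : Poly2) (v : Vec n) (x u) : der (sv q v) x u = D q x u • v := by
  funext j
  simp only [der, sv, D, Fin.sum_univ_two, Derivation.leibniz, pderiv_C, smul_eq_mul, mul_zero,
    zero_add, map_mul, eval_C, Pi.smul_apply]
  ring

theorem cv_dot (q : Poly2) (l : Vec n →ₗ[ℂ] ℂ) (x) (v : Vec n) :
    val (cv q l) x ⬝ᵥ v = eval x q * l v := by
  have hv : l v = ∑ j, v j * l (Pi.single j 1) := by
    conv_lhs => rw [← Finset.univ_sum_single v]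
    rw [map_sum]
    refine Finset.sum_congr rfl fun j _ => ?_
    rw [← smul_eq_mul, ← map_smul]
    congr 1
    funext k
    by_cases h : k = j
    · subst h; simp
    · simp [h]
  rw [hv, Finset.mul_sum, dotProduct]
  refine Finset.sum_congr rfl fun j _ => ?_
  simp only [val, cv, map_mul, eval_C]
  ring

theorem sv_hom {q : Poly2} {d : ℕ} (hq : q.IsHomogeneous d) (u : Vec n) (j) :
    (sv q u j).IsHomogeneous d := by
  simpa [sv] using hq.mul (isHomogeneous_C (Fin 2) (u j))

theorem cv_hom {q : Poly2} {d : ℕ} (hq : q.IsHomogeneous d) (l : Vec n →ₗ[ℂ] ℂ) (j) :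
    (cv q l j).IsHomogeneous d := by
  simpa [cv] using hq.mul (isHomogeneous_C (Fin 2) (l (Pi.single j 1)))

theorem add_hom {F G : Fin (n + 1) → Poly2} {d : ℕ} (hF : ∀ j, (F j).IsHomogeneous d)
    (hG : ∀ j, (G j).IsHomogeneous d) (j) : ((F + G) j).IsHomogeneous d :=
  (hF j).add (hG j)

theorem zero_hom {d : ℕ} (j : Fin (n + 1)) : ((0 : Fin (n + 1) → Poly2) j).IsHomogeneous d :=
  isHomogeneous_zero _ _ _

theorem val_add_dot (F G : Fin (n + 1) → Poly2) (x) (v : Vec n) :
    val (F + G) x ⬝ᵥ v = val F x ⬝ᵥ v + val G x ⬝ᵥ v := by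
  rw [val_add, add_dotProduct]

theorem val_zero_dot (x) (v : Vec n) : val (0 : Fin (n + 1) → Poly2) x ⬝ᵥ v = 0 := by
  rw [val_zero, zero_dotProduct]

theorem ne_zero_cases {x : Fin 2 → ℂ} (hx : x ≠ 0) : x 0 ≠ 0 ∨ x 1 ≠ 0 := by
  by_contra hc
  push Not at hc
  apply hx
  funext k
  fin_cases k
  · exact hc.1
  · exact hc.2

/-- a splitting indexed by another finite type -/
theorem Emb.NormalIso.of_equiv {h : ℕ} {p : Fin h → Vec n} (f : Emb p) {κ : Type}
    (eq : Fin (n - 1) ≃ κ) (a : κ → ℤ)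
    (θ : (Fin 2 → ℂ) → Vec n → (Fin h → Vec n) → κ → ℂ)
    (h1 : ∀ x, x ≠ 0 → ∀ v w, f.Tan x v w → ((∀ k, θ x v w k = 0) ↔ f.Nul x v w))
    (h2 : ∀ x, x ≠ 0 → ∀ y : κ → ℂ, ∃ v w, f.Tan x v w ∧ ∀ k, θ x v w k = y k)
    (h3 : ∀ (k : κ) (c : Fin 2), ∃ (N D : ℕ) (E : Fin h → ℕ)
      (φ : Fin (n + 1) → Poly2) (ψ : Fin h → Fin (n + 1) → Poly2),
      (D : ℤ) + f.d = N + a k ∧ (∀ j, (φ j).IsHomogeneous D) ∧
      (∀ i, (E i : ℤ) + f.e i = N + a k) ∧ (∀ i j, (ψ i j).IsHomogeneous (E i)) ∧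
      ∀ x, x ≠ 0 → ∀ v w, f.Tan x v w →
        x c ^ N * θ x v w k = val φ x ⬝ᵥ v + ∑ i, val (ψ i) x ⬝ᵥ w i) :
    f.NormalIso (fun k => a (eq k)) := by
  refine ⟨fun x v w k => θ x v w (eq k), ?_, ?_, ?_⟩
  · intro x hx v w ht
    rw [← h1 x hx v w ht]
    constructor
    · intro hz k
      have := congrFun hz (eq.symm k)
      simpa using this
    · intro hz
      funext k
      exact hz _
  · intro x hx y
    obtain ⟨v, w, ht, hy⟩ := h2 x hx (fun k => y (eq.symm k))
    refine ⟨v, w, ht, ?_⟩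
    funext k
    change θ x v w (eq k) = y k
    rw [hy]
    simp
  · intro k c
    exact h3 (eq k) c

end Pool.Agent.H58.MinusOne
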