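import Mathlib

/-!
# (-1)-curves on blow-ups of projective space at points: the definitions

Everything is over the complex numbers. Points of `P^n` are given by nonzero vectors of
`Vec n = C^(n+1)`, up to scaling.

* The blow-up of `P^n` at pairwise distinct points `p i` is the classical incidence variety:
  its points are a point `L` of `P^n` together with, for each `i`, a line `M i` of `P^n`
  through `p i` and through `L`.
* A smooth curve isomorphic to `P^1` in it is the image of a closed embedding `Emb p`, given by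
  binary forms in the homogeneous coordinates `x = (x 0, x 1)` of `P^1`.
* The normal bundle is the quotient of first order deformations `Emb.Tan` by those tangent to the
  curve `Emb.Nul`; `Emb.NormalIso f a` says that it is isomorphic to the direct sum of the line
  bundles `O(a k)`.
-/

namespace Pool.Agent.H58.MinusOne

open MvPolynomial Submodule

/-- `C^(n+1)`; the points of `P^n` are its lines. -/
abbrev Vec (n : ℕ) := Fin (n + 1) → ℂ

/-- Polynomials in the two homogeneous coordinates of `P^1`. -/
abbrev Poly2 := MvPolynomial (Fin 2) ℂ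

/-- The value at `x` of a vector of polynomials. -/
noncomputable def val {n : ℕ} (F : Fin (n + 1) → Poly2) (x : Fin 2 → ℂ) : Vec n :=
  fun j => eval x (F j)

/-- The derivative at `x`, in the direction `u`, of a vector of polynomials. -/
noncomputable def der {n : ℕ} (F : Fin (n + 1) → Poly2) (x u : Fin 2 → ℂ) : Vec n :=
  fun j => ∑ k, u k * eval x (pderiv k (F j))

/-- The ambient set of the blow-up: a linear subspace `L` of `C^(n+1)` and subspaces `M i`. -/
abbrev Amb (n h : ℕ) := Submodule ℂ (Vec n) × (Fin h → Submodule ℂ (Vec n))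

/-- The blow-up of `P^n` at the points `p i`: pairs `(L, M)`, where `L` is a point of `P^n`
and `M i` is a line of `P^n` through `p i` and through `L`. -/
def BlowUp {n h : ℕ} (p : Fin h → Vec n) : Set (Amb n h) :=
  {q | Module.finrank ℂ q.1 = 1 ∧
    ∀ i, Module.finrank ℂ (q.2 i) = 2 ∧ p i ∈ q.2 i ∧ q.1 ≤ q.2 i}

/-- A closed embedding of `P^1` into the blow-up of `P^n` at the points `p i`:
`x` is sent to the point `F x` of `P^n` together with the lines through `p i` and `G i x`.
Here `F` is a vector of forms of degree `d`, and `G i` a vector of forms of degree `e i`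
(only its class modulo `p i` matters); `inj` says that the map is injective on `P^1` and `imm`
that its derivative vanishes nowhere. -/
structure Emb {n h : ℕ} (p : Fin h → Vec n) where
  /-- degree of the composite with the map to `P^n` -/
  d : ℕ
  /-- degree of the composite with the projection from `p i` -/
  e : Fin h → ℕ
  /-- homogeneous coordinates of the point of `P^n` -/
  F : Fin (n + 1) → Poly2
  /-- homogeneous coordinates of a second point of the line `M i` -/
  G : Fin h → Fin (n + 1) → Poly2
  homF : ∀ j, (F j).IsHomogeneous d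
  homG : ∀ i j, (G i j).IsHomogeneous (e i)
  F_ne : ∀ x, x ≠ 0 → val F x ≠ 0
  G_ne : ∀ i x, x ≠ 0 → val (G i) x ∉ span ℂ {p i}
  mem : ∀ i x, x ≠ 0 → val F x ∈ span ℂ {p i, val (G i) x}
  inj : ∀ x y, x ≠ 0 → y ≠ 0 → val F y ∈ span ℂ {val F x} →
    (∀ i, val (G i) y ∈ span ℂ {p i, val (G i) x}) → y ∈ span ℂ {x}
  imm : ∀ x u, x ≠ 0 → der F x u ∈ span ℂ {val F x} →
    (∀ i, der (G i) x u ∈ span ℂ {p i, val (G i) x}) → u ∈ span ℂ {x}

variable {n h : ℕ} {p : Fin h → Vec n}

/-- The point of the blow-up with parameter `x`. -/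
noncomputable def Emb.pt (f : Emb p) (x : Fin 2 → ℂ) : Amb n h :=
  (span ℂ {val f.F x}, fun i => span ℂ {p i, val (f.G i) x})

/-- The curve parametrised by `f`, as a subset of the blow-up. -/
def Emb.curve (f : Emb p) : Set (Amb n h) := {q | ∃ x, x ≠ 0 ∧ q = f.pt x}

/-- `(v, w)` is a tangent vector of the blow-up at `f.pt x`: the first order deformation
`F x + ε v`, `G i x + ε w i` stays in the blow-up. It is zero when `v` is a multiple of `F x` and
each `w i` lies in the span of `p i` and `G i x`. -/
def Emb.Tan (f : Emb p) (x : Fin 2 → ℂ) (v : Vec n) (w : Fin h → Vec n) : Prop :=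
  ∀ i, ∃ c : ℂ, val f.F x - c • val (f.G i) x ∈ span ℂ {p i} ∧
    v - c • w i ∈ span ℂ {p i, val (f.G i) x}

/-- `(v, w)` is tangent to the curve, i.e. it equals, up to a zero tangent vector, the derivative
of `f` in some direction `u`: its class in the normal space is zero. -/
def Emb.Nul (f : Emb p) (x : Fin 2 → ℂ) (v : Vec n) (w : Fin h → Vec n) : Prop :=
  ∃ u : Fin 2 → ℂ, v - der f.F x u ∈ span ℂ {val f.F x} ∧
    ∀ i, w i - der (f.G i) x u ∈ span ℂ {p i, val (f.G i) x}

/-- The normal bundle of the curve is isomorphic to the direct sum of the line bundles `O(a k)`,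
`k = 1, ..., n - 1`: there are linear isomorphisms `θ x` from the normal spaces `Tan / Nul` to
`C^(n-1)`, whose `k`-th component is a regular map to `O(a k)`, i.e. on each of the two charts
`x c ≠ 0` of `P^1` it is given by forms divided by a power of `x c`, of total degree `a k`. -/
def Emb.NormalIso (f : Emb p) (a : Fin (n - 1) → ℤ) : Prop :=
  ∃ θ : (Fin 2 → ℂ) → Vec n → (Fin h → Vec n) → Fin (n - 1) → ℂ,
    (∀ x, x ≠ 0 → ∀ v w, f.Tan x v w → (θ x v w = 0 ↔ f.Nul x v w)) ∧
    (∀ x, x ≠ 0 → ∀ y, ∃ v w, f.Tan x v w ∧ θ x v w = y) ∧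
    ∀ (k : Fin (n - 1)) (c : Fin 2), ∃ (N D : ℕ) (E : Fin h → ℕ)
      (φ : Fin (n + 1) → Poly2) (ψ : Fin h → Fin (n + 1) → Poly2),
      (D : ℤ) + f.d = N + a k ∧ (∀ j, (φ j).IsHomogeneous D) ∧
      (∀ i, (E i : ℤ) + f.e i = N + a k) ∧ (∀ i j, (ψ i j).IsHomogeneous (E i)) ∧
      ∀ x, x ≠ 0 → ∀ v w, f.Tan x v w →
        x c ^ N * θ x v w k = val φ x ⬝ᵥ v + ∑ i, val (ψ i) x ⬝ᵥ w i

/-- The parametrised curve `f` is a (-1)-curve: its normal bundle is
`O(-1)^s ⊕ (line bundles of nonnegative degree)` for some `s` with `1 ≤ s ≤ n - 1`. -/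
def Emb.IsMinusOne (f : Emb p) : Prop :=
  ∃ a : Fin (n - 1) → ℤ, f.NormalIso a ∧ (∀ k, a k = -1 ∨ 0 ≤ a k) ∧ ∃ k, a k = -1

/-- `C` is a (-1)-curve (of some size) on the blow-up of `P^n` at the points `p i`. -/
def IsMinusOneCurve (p : Fin h → Vec n) (C : Set (Amb n h)) : Prop :=
  C ⊆ BlowUp p ∧ ∃ f : Emb p, f.IsMinusOne ∧ f.curve = C

/-- The vectors `p i` define pairwise distinct points of `P^n`. -/
def DistinctPoints (p : Fin h → Vec n) : Prop :=
  (∀ i, p i ≠ 0) ∧ ∀ i j, i ≠ j → p i ∉ span ℂ {p j}

end Pool.Agent.H58.MinusOne
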