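import Pool.Agent.H58.MinusOne.Basic

set_option linter.unusedSectionVars false
set_option linter.unusedSimpArgs false
set_option linter.unusedFintypeInType false

namespace Pool.Agent.H58.MinusOne
open MvPolynomial Submodule

variable {n h : ℕ} {p : Fin h → Vec n}

section
variable {κ : Type} [Fintype κ] (b : Module.Basis (Fin 3 ⊕ κ) ℂ (Vec n)) (i0 : Fin h)

/-- the line spanned by `b 1`, `b 2` in the exceptional divisor over `p i0 = b 0` -/
noncomputable def lineG (i : Fin h) : Fin (n + 1) → Poly2 :=
  if i = i0 then sv (X 0) (b (Sum.inl 1)) + sv (X 1) (b (Sum.inl 2)) else sv 1 (b (Sum.inl 0))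

theorem val_lineG_self (x) : val (lineG b i0 i0) x = x 0 • b (Sum.inl 1) + x 1 • b (Sum.inl 2) := by
  rw [lineG, if_pos rfl, val_add, val_sv, val_sv, eval_X, eval_X]

theorem val_lineG_ne {i : Fin h} (hi : i ≠ i0) (x) : val (lineG b i0 i) x = b (Sum.inl 0) := by
  rw [lineG, if_neg hi, val_sv, map_one, one_smul]

theorem der_lineG_self (x u) :
    der (lineG b i0 i0) x u = u 0 • b (Sum.inl 1) + u 1 • b (Sum.inl 2) := by
  rw [lineG, if_pos rfl, der_add, der_sv, der_sv, D_X0, D_X1]

theorem der_lineG_ne {i : Fin h} (hi : i ≠ i0) (x u) : der (lineG b i0 i) x u = 0 := by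
  rw [lineG, if_neg hi, der_sv, ← C_1, D_C, zero_smul]

theorem mem_span_b0G {x : Fin 2 → ℂ} {v : Vec n}
    (hv : v ∈ span ℂ {b (Sum.inl 0), x 0 • b (Sum.inl 1) + x 1 • b (Sum.inl 2)}) :
    ∃ μ : ℂ, b.coord (Sum.inl 1) v = μ * x 0 ∧ b.coord (Sum.inl 2) v = μ * x 1 ∧
      ∀ k, b.coord (Sum.inr k) v = 0 := by
  obtain ⟨α, β, rfl⟩ := mem_span_pair.1 hv
  refine ⟨β, ?_, ?_, ?_⟩
  · simp [Finsupp.single_apply]
  · simp [Finsupp.single_apply]
  · intro k
    simp [Finsupp.single_apply]

theorem span_b0G_mem {x : Fin 2 → ℂ} {v : Vec n} (μ : ℂ) (h1 : b.coord (Sum.inl 1) v = μ * x 0)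
    (h2 : b.coord (Sum.inl 2) v = μ * x 1) (h3 : ∀ k, b.coord (Sum.inr k) v = 0) :
    v ∈ span ℂ {b (Sum.inl 0), x 0 • b (Sum.inl 1) + x 1 • b (Sum.inl 2)} := by
  refine mem_span_pair.2 ⟨b.coord (Sum.inl 0) v, μ, ?_⟩
  apply b.ext_elem
  rintro (j | k)
  · fin_cases j
    · simp [Finsupp.single_apply]
    · simpa [Finsupp.single_apply] using h1.symm
    · simpa [Finsupp.single_apply] using h2.symm
  · simpa [Finsupp.single_apply] using (h3 k).symm

theorem span_b0_mem {v : Vec n} (h1 : b.coord (Sum.inl 1) v = 0)
    (h2 : b.coord (Sum.inl 2) v = 0) (h3 : ∀ k, b.coord (Sum.inr k) v = 0) :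
    v ∈ span ℂ {b (Sum.inl 0)} := by
  refine mem_span_singleton.2 ⟨b.coord (Sum.inl 0) v, ?_⟩
  apply b.ext_elem
  rintro (j | k)
  · fin_cases j
    · simp [Finsupp.single_apply]
    · simpa [Finsupp.single_apply] using h1.symm
    · simpa [Finsupp.single_apply] using h2.symm
  · simpa [Finsupp.single_apply] using (h3 k).symm

theorem mem_span_b0 {v : Vec n} (hv : v ∈ span ℂ {b (Sum.inl 0)}) :
    b.coord (Sum.inl 1) v = 0 ∧ b.coord (Sum.inl 2) v = 0 ∧ ∀ k, b.coord (Sum.inr k) v = 0 := by
  obtain ⟨μ, rfl⟩ := mem_span_singleton.1 hv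
  refine ⟨?_, ?_, ?_⟩
  · simp [Finsupp.single_apply]
  · simp [Finsupp.single_apply]
  · intro k
    simp [Finsupp.single_apply]

theorem mem_line_of_coords {x y : Fin 2 → ℂ} {μ : ℂ} (h0 : y 0 = μ * x 0) (h1 : y 1 = μ * x 1) :
    y ∈ span ℂ {x} := by
  refine mem_span_singleton.2 ⟨μ, ?_⟩
  funext k
  fin_cases k
  · simp [h0]
  · simp [h1]

/-- The embedding of the line. -/
noncomputable def excLine (hp : DistinctPoints p) (hb : b (Sum.inl 0) = p i0) : Emb p where
  d := 0
  e := fun i => if i = i0 then 1 else 0
  F := sv 1 (b (Sum.inl 0))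
  G := lineG b i0
  homF := sv_hom (isHomogeneous_one _ _) _
  homG := by
    intro i j
    by_cases hi : i = i0
    · subst hi
      simp only [lineG, if_true]
      exact add_hom (sv_hom (isHomogeneous_X _ _) _) (sv_hom (isHomogeneous_X _ _) _) j
    · simp only [lineG, if_neg hi]
      exact sv_hom (isHomogeneous_one _ _) _ j
  F_ne := by
    intro x _
    rw [val_sv, map_one, one_smul, hb]
    exact hp.1 i0
  G_ne := by
    intro i x hx hmem
    by_cases hi : i = i0
    · subst hi
      rw [val_lineG_self, ← hb] at hmem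
      obtain ⟨h1, h2, -⟩ := mem_span_b0 b hmem
      apply hx
      funext k
      fin_cases k
      · simpa [Finsupp.single_apply] using h1
      · simpa [Finsupp.single_apply] using h2
    · rw [val_lineG_ne b i0 hi, hb] at hmem
      exact hp.2 i0 i (Ne.symm hi) hmem
  mem := by
    intro i x hx
    rw [val_sv, map_one, one_smul]
    by_cases hi : i = i0
    · subst hi
      rw [← hb]
      exact subset_span (by simp)
    · rw [val_lineG_ne b i0 hi]
      exact subset_span (by simp)
  inj := by
    intro x y _ _ _ hG
    have := hG i0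
    rw [val_lineG_self, val_lineG_self, ← hb] at this
    obtain ⟨μ, h1, h2, -⟩ := mem_span_b0G b this
    refine mem_line_of_coords (μ := μ) ?_ ?_
    · simpa [Finsupp.single_apply] using h1
    · simpa [Finsupp.single_apply] using h2
  imm := by
    intro x u _ _ hG
    have := hG i0
    rw [der_lineG_self, val_lineG_self, ← hb] at this
    obtain ⟨μ, h1, h2, -⟩ := mem_span_b0G b this
    refine mem_line_of_coords (μ := μ) ?_ ?_
    · simpa [Finsupp.single_apply] using h1
    · simpa [Finsupp.single_apply] using h2

theorem excLine_tan (hp : DistinctPoints p) (hb : b (Sum.inl 0) = p i0) {x : Fin 2 → ℂ}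
    (hx : x ≠ 0) (v : Vec n) (w : Fin h → Vec n) :
    (excLine b i0 hp hb).Tan x v w ↔
      v ∈ span ℂ {b (Sum.inl 0), x 0 • b (Sum.inl 1) + x 1 • b (Sum.inl 2)} ∧
      ∀ i, i ≠ i0 → v - w i ∈ span ℂ {p i, b (Sum.inl 0)} := by
  constructor
  · intro ht
    constructor
    · obtain ⟨c, h1, h2⟩ := ht i0
      simp only [excLine] at h1 h2
      rw [val_lineG_self, val_sv, map_one, one_smul, ← hb] at h1
      rw [val_lineG_self, ← hb] at h2
      obtain ⟨h3, h4, -⟩ := mem_span_b0 b h1
      have h3' : c * x 0 = 0 := by simpa [Finsupp.single_apply] using h3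
      have h4' : c * x 1 = 0 := by simpa [Finsupp.single_apply] using h4
      have hc : c = 0 := by
        rcases ne_zero_cases hx with h0 | h0
        · exact (mul_eq_zero.1 h3').resolve_right h0
        · exact (mul_eq_zero.1 h4').resolve_right h0
      rw [hc, zero_smul, sub_zero] at h2
      exact h2
    · intro i hi
      obtain ⟨c, h1, h2⟩ := ht i
      simp only [excLine] at h1 h2
      rw [val_lineG_ne b i0 hi, val_sv, map_one, one_smul] at h1
      rw [val_lineG_ne b i0 hi] at h2
      have hc : c = 1 := by
        by_contra hc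
        have h5 : (1 - c) • b (Sum.inl 0) ∈ span ℂ {p i} := by
          rw [sub_smul, one_smul]; exact h1
        have h6 := (span ℂ {p i}).smul_mem (1 - c)⁻¹ h5
        rw [smul_smul, inv_mul_cancel₀ (sub_ne_zero.2 (Ne.symm hc)), one_smul, hb] at h6
        exact hp.2 i0 i (Ne.symm hi) h6
      rw [hc, one_smul] at h2
      exact h2
  · rintro ⟨h1, h2⟩ i
    by_cases hi : i = i0
    · subst hi
      refine ⟨0, ?_, ?_⟩
      · simp only [excLine]
        rw [val_sv, map_one, one_smul, zero_smul, sub_zero, hb]
        exact subset_span (by simp)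
      · simp only [excLine]
        rw [zero_smul, sub_zero, val_lineG_self, ← hb]
        exact h1
    · refine ⟨1, ?_, ?_⟩
      · simp only [excLine]
        rw [val_sv, map_one, one_smul, one_smul, val_lineG_ne b i0 hi, sub_self]
        exact zero_mem _
      · simp only [excLine]
        rw [one_smul, val_lineG_ne b i0 hi]
        exact h2 i hi

theorem excLine_nul (hp : DistinctPoints p) (hb : b (Sum.inl 0) = p i0) {x : Fin 2 → ℂ}
    (v : Vec n) (w : Fin h → Vec n) :
    (excLine b i0 hp hb).Nul x v w ↔
      v ∈ span ℂ {b (Sum.inl 0)} ∧ (∀ k, b.coord (Sum.inr k) (w i0) = 0) ∧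
      ∀ i, i ≠ i0 → w i ∈ span ℂ {p i, b (Sum.inl 0)} := by
  constructor
  · rintro ⟨u, h1, h2⟩
    refine ⟨?_, ?_, ?_⟩
    · simp only [excLine] at h1
      rw [val_sv, der_sv, map_one, one_smul, ← C_1, D_C, zero_smul, sub_zero] at h1
      exact h1
    · intro k
      have := h2 i0
      simp only [excLine] at this
      rw [der_lineG_self, val_lineG_self, ← hb] at this
      obtain ⟨μ, -, -, h3⟩ := mem_span_b0G b this
      simpa [Finsupp.single_apply] using h3 k
    · intro i hi
      have := h2 i
      simp only [excLine] at this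
      rw [der_lineG_ne b i0 hi, val_lineG_ne b i0 hi, sub_zero] at this
      exact this
  · rintro ⟨h1, h2, h3⟩
    refine ⟨![b.coord (Sum.inl 1) (w i0), b.coord (Sum.inl 2) (w i0)], ?_, ?_⟩
    · simp only [excLine]
      rw [val_sv, der_sv, map_one, one_smul, ← C_1, D_C, zero_smul, sub_zero]
      exact h1
    · intro i
      by_cases hi : i = i0
      · subst hi
        simp only [excLine]
        rw [der_lineG_self, val_lineG_self, ← hb]
        refine span_b0G_mem b 0 ?_ ?_ ?_
        · simp [Finsupp.single_apply]
        · simp [Finsupp.single_apply]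
        · intro k
          simpa [Finsupp.single_apply] using h2 k
      · simp only [excLine]
        rw [der_lineG_ne b i0 hi, val_lineG_ne b i0 hi, sub_zero]
        exact h3 i hi

/-- The trivialising maps of the normal bundle of a line in an exceptional divisor. -/
noncomputable def excTheta (x : Fin 2 → ℂ) (v : Vec n) (w : Fin h → Vec n) : Option κ → ℂ
  | none => if x 0 ≠ 0 then b.coord (Sum.inl 1) v / x 0 else b.coord (Sum.inl 2) v / x 1
  | some k => b.coord (Sum.inr k) (w i0)

theorem excTheta_none {x : Fin 2 → ℂ} (hx : x ≠ 0) {v : Vec n} (w : Fin h → Vec n) {μ : ℂ}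
    (h1 : b.coord (Sum.inl 1) v = μ * x 0) (h2 : b.coord (Sum.inl 2) v = μ * x 1) :
    excTheta b i0 x v w none = μ := by
  unfold excTheta
  by_cases h0 : x 0 ≠ 0
  · simp only [if_pos h0]
    rw [h1, mul_div_cancel_right₀ _ h0]
  · simp only [if_neg h0]
    rw [h2, mul_div_cancel_right₀]
    exact (ne_zero_cases hx).resolve_left h0

theorem excLine_minusOne (hn : 3 ≤ n) (hκ : Fintype.card κ + 3 = n + 1)
    (hp : DistinctPoints p) (hb : b (Sum.inl 0) = p i0) :
    (excLine b i0 hp hb).IsMinusOne := by
  classical
  have hcard : Fintype.card (Fin (n - 1)) = Fintype.card (Option κ) := by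
    rw [Fintype.card_fin, Fintype.card_option]; omega
  let eq : Fin (n - 1) ≃ Option κ := Fintype.equivOfCardEq hcard
  let a : Option κ → ℤ := fun o => match o with
    | none => -1
    | some _ => 1
  refine ⟨fun k => a (eq k), ?_, ?_, ⟨eq.symm none, by simp [a]⟩⟩
  · refine Emb.NormalIso.of_equiv _ eq a (excTheta b i0) ?_ ?_ ?_
    · intro x hx v w ht
      rw [excLine_nul]
      obtain ⟨h1, h2⟩ := (excLine_tan b i0 hp hb hx v w).1 ht
      obtain ⟨μ, m1, m2, m3⟩ := mem_span_b0G b h1
      constructor
      · intro hz
        have hμ := hz none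
        rw [excTheta_none b i0 hx w m1 m2] at hμ
        rw [hμ, zero_mul] at m1 m2
        have hv := span_b0_mem b m1 m2 m3
        refine ⟨hv, fun k => hz (some k), fun i hi => ?_⟩
        have h3 := h2 i hi
        have h4 : v ∈ span ℂ {p i, b (Sum.inl 0)} := span_mono (by simp) hv
        have := sub_mem h4 h3
        rwa [sub_sub_cancel] at this
      · rintro ⟨h3, h4, h5⟩ k
        cases k with
        | none =>
          obtain ⟨h6, h7, -⟩ := mem_span_b0 b h3
          exact excTheta_none b i0 hx w (by rw [h6, zero_mul]) (by rw [h7, zero_mul])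
        | some k => exact h4 k
    · intro x hx y
      let g : Vec n := x 0 • b (Sum.inl 1) + x 1 • b (Sum.inl 2)
      refine ⟨y none • g, fun i => if i = i0 then ∑ k, y (some k) • b (Sum.inr k) else y none • g,
        ?_, ?_⟩
      · rw [excLine_tan b i0 hp hb hx]
        refine ⟨smul_mem _ _ (subset_span (by simp [g])), fun i hi => ?_⟩
        simp only [if_neg hi, sub_self]
        exact zero_mem _
      · intro k
        cases k with
        | none =>
          refine excTheta_none b i0 hx _ ?_ ?_
          · simp [g, Finsupp.single_apply]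
          · simp [g, Finsupp.single_apply]
        | some k =>
          simp only [excTheta, if_true]
          rw [map_sum]
          simp [Finsupp.single_apply]
    · intro k c
      cases k with
      | none =>
        refine ⟨2, 1, fun i => if i = i0 then 0 else 1,
          cv (X c) (b.coord (Sum.inl (if c = 0 then 1 else 2))), fun _ => 0, ?_, ?_, ?_, ?_, ?_⟩
        · simp [a, excLine]
        · exact cv_hom (isHomogeneous_X _ _) _
        · intro i
          by_cases hi : i = i0
          · simp [a, excLine, hi]
          · simp [a, excLine, hi]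
        · intro i j
          exact isHomogeneous_zero _ _ _
        · intro x hx v w ht
          obtain ⟨h1, h2⟩ := (excLine_tan b i0 hp hb hx v w).1 ht
          obtain ⟨μ, m1, m2, m3⟩ := mem_span_b0G b h1
          rw [excTheta_none b i0 hx w m1 m2, cv_dot, eval_X]
          simp only [val_zero_dot, Finset.sum_const_zero, add_zero]
          fin_cases c
          · simp only [Fin.zero_eta, if_true]
            rw [m1]; ring
          · simp only [Fin.mk_one, Fin.isValue, one_ne_zero, if_false]
            rw [m2]; ring
      | some k =>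
        refine ⟨0, 1, fun i => if i = i0 then 0 else 1, 0,
          fun i => if i = i0 then cv 1 (b.coord (Sum.inr k)) else 0, ?_, ?_, ?_, ?_, ?_⟩
        · simp [a, excLine]
        · intro j
          exact isHomogeneous_zero _ _ _
        · intro i
          by_cases hi : i = i0
          · simp [a, excLine, hi]
          · simp [a, excLine, hi]
        · intro i j
          by_cases hi : i = i0
          · simp only [if_pos hi]
            exact cv_hom (isHomogeneous_one _ _) _ j
          · simp only [if_neg hi]
            exact isHomogeneous_zero _ _ _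
        · intro x hx v w ht
          rw [pow_zero, one_mul, val_zero_dot, zero_add]
          rw [Finset.sum_eq_single i0]
          · simp only [if_true]
            rw [cv_dot, map_one, one_mul]
            rfl
          · intro i _ hi
            simp only [if_neg hi]
            rw [val_zero_dot]
          · intro hi
            exact absurd (Finset.mem_univ _) hi
  · intro k
    cases hk : eq k with
    | none => left; simp [a, hk]
    | some j => right; simp [a, hk]

end

end Pool.Agent.H58.MinusOne
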