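import Pool.Agent.H58.MinusOne.ExcLine

set_option linter.unusedSectionVars false
set_option linter.unusedSimpArgs false

namespace Pool.Agent.H58.MinusOne
open MvPolynomial Submodule

variable {n h : ℕ} {p : Fin h → Vec n}

theorem curve_subset (hp : DistinctPoints p) (f : Emb p) : f.curve ⊆ BlowUp p := by
  rintro q ⟨x, hx, rfl⟩
  refine ⟨finrank_span_singleton (f.F_ne x hx), fun i => ⟨?_, ?_, ?_⟩⟩
  · have hli : LinearIndependent ℂ ![p i, val (f.G i) x] := by
      rw [LinearIndependent.pair_iff]
      intro s t hst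
      have ht : t = 0 := by
        by_contra ht
        apply f.G_ne i x hx
        refine mem_span_singleton.2 ⟨-(t⁻¹ * s), ?_⟩
        have h1 : t • val (f.G i) x = -(s • p i) := by
          rw [eq_neg_iff_add_eq_zero, add_comm]; exact hst
        have h2 : val (f.G i) x = t⁻¹ • (t • val (f.G i) x) := by
          rw [smul_smul, inv_mul_cancel₀ ht, one_smul]
        rw [h2, h1, smul_neg, smul_smul, neg_smul]
      refine ⟨?_, ht⟩
      rw [ht, zero_smul, add_zero] at hst
      exact (smul_eq_zero.1 hst).resolve_right (hp.1 i)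
    have h1 := finrank_span_eq_card hli
    rw [Matrix.range_cons_cons_empty, Fintype.card_fin] at h1
    exact h1
  · exact subset_span (by simp)
  · exact (span_le.2 (by
      rintro _ ⟨⟩
      exact f.mem i x hx))

theorem infinite_minusOne (hn : 3 ≤ n) (hh : 1 ≤ h) (hp : DistinctPoints p) :
    {C | IsMinusOneCurve p C}.Infinite := by
  classical
  let i0 : Fin h := ⟨0, hh⟩
  have h1 : LinearIndependent ℂ ![p i0] := by
    rw [linearIndependent_unique_iff]
    exact hp.1 i0
  obtain ⟨κ', _, B, hB, hcard'⟩ := exists_basis ![p i0] h1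
  have h3 : 2 < Fintype.card κ' := by omega
  obtain ⟨k1, k2, k3, h12, h13, h23⟩ := Fintype.two_lt_card_iff.1 h3
  have hB0 : B (Sum.inl 0) = p i0 := hB 0
  set u := B (Sum.inr k1) with hu
  set v := B (Sum.inr k2) with hv
  set w := B (Sum.inr k3) with hw
  have hli : ∀ τ : ℂ, LinearIndependent ℂ ![p i0, u, v + τ • w] := by
    intro τ
    rw [Fintype.linearIndependent_iff]
    intro g hg
    rw [Fin.sum_univ_three] at hg
    simp only [Matrix.cons_val_zero, Matrix.cons_val_one, Matrix.cons_val_two, Matrix.tail_cons,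
      Matrix.head_cons, Matrix.cons_val] at hg
    rw [← hB0, hu, hv, hw] at hg
    have e0 := congrArg (B.coord (Sum.inl 0)) hg
    have e1 := congrArg (B.coord (Sum.inr k1)) hg
    have e2 := congrArg (B.coord (Sum.inr k2)) hg
    simp [Finsupp.single_apply, h12, h13, h23, h12.symm, h13.symm, h23.symm] at e0 e1 e2
    intro j
    fin_cases j
    · exact e0
    · exact e1
    · exact e2
  choose κ inst b hb hcard using fun τ : ℂ => exists_basis _ (hli τ)
  have hb0 : ∀ τ, b τ (Sum.inl 0) = p i0 := fun τ => hb τ 0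
  have hb1 : ∀ τ, b τ (Sum.inl 1) = u := fun τ => hb τ 1
  have hb2 : ∀ τ, b τ (Sum.inl 2) = v + τ • w := fun τ => hb τ 2
  let C : ℂ → Set (Amb n h) := fun τ => (excLine (b τ) i0 hp (hb0 τ)).curve
  refine Set.infinite_of_injective_forall_mem (f := C) ?_ ?_
  · intro τ τ' hC
    have hmem : (excLine (b τ) i0 hp (hb0 τ)).pt ![0, 1] ∈ C τ :=
      ⟨![0, 1], by intro h0; simpa using congrFun h0 1, rfl⟩
    rw [hC] at hmem
    obtain ⟨x, hx, hpt⟩ := hmem
    have h4 := congrFun (congrArg Prod.snd hpt) i0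
    simp only [Emb.pt, excLine] at h4
    rw [val_lineG_self, val_lineG_self, hb1, hb2, hb1, hb2] at h4
    simp only [Matrix.cons_val_zero, Matrix.cons_val_one, zero_smul, one_smul, zero_add] at h4
    have h5 : v + τ • w ∈ span ℂ {p i0, x 0 • u + x 1 • (v + τ' • w)} := by
      rw [← h4]; exact subset_span (by simp)
    obtain ⟨α, β, h6⟩ := mem_span_pair.1 h5
    rw [← hB0, hu, hv, hw] at h6
    have e2 := congrArg (B.coord (Sum.inr k2)) h6
    have e3 := congrArg (B.coord (Sum.inr k3)) h6
    simp [Finsupp.single_apply, h12, h13, h23, h12.symm, h13.symm, h23.symm] at e2 e3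
    rw [← e3, ← mul_assoc, e2, one_mul]
  · intro τ
    refine ⟨curve_subset hp _, _, ?_, rfl⟩
    exact excLine_minusOne (b τ) i0 hn (hcard τ) hp (hb0 τ)

end Pool.Agent.H58.MinusOne
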