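import Pool.Agent.H58.MinusOne.Sections
import Pool.Agent.H58.MinusOne.Infinite

set_option linter.unusedSectionVars false
set_option linter.unusedSimpArgs false

namespace Pool.Agent.H58.MinusOne
open MvPolynomial Submodule

variable {n h : ℕ} {p : Fin h → Vec n}

theorem val_const_of_deg_zero {F : Fin (n + 1) → Poly2} (hF : ∀ j, (F j).IsHomogeneous 0)
    (x y : Fin 2 → ℂ) : val F x = val F y := by
  funext j
  have h1 := eval_smul_hom (hF j) 0 x
  have h2 := eval_smul_hom (hF j) 0 y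
  rw [zero_smul, pow_zero, one_mul] at h1 h2
  change eval x (F j) = eval y (F j)
  rw [← h1, ← h2]

theorem exists_scalar {v w : Vec n} (hw : w ≠ 0) (hm : w ∈ span ℂ {v}) :
    ∃ μ : ℂ, μ ≠ 0 ∧ μ • v = w := by
  obtain ⟨μ, hμ⟩ := mem_span_singleton.1 hm
  refine ⟨μ, ?_, hμ⟩
  rintro rfl
  rw [zero_smul] at hμ
  exact hw hμ.symm

theorem span_eq_of_mem {v w : Vec n} (hw : w ≠ 0) (hm : w ∈ span ℂ {v}) :
    span ℂ {w} = span ℂ {v} := by
  obtain ⟨μ, hμ, rfl⟩ := exists_scalar hw hm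
  exact span_singleton_smul_eq (IsUnit.mk0 μ hμ) v

theorem mem_symm {v w : Vec n} (hw : w ≠ 0) (hm : w ∈ span ℂ {v}) : v ∈ span ℂ {w} := by
  rw [span_eq_of_mem hw hm]; exact subset_span (by simp)

theorem contr_of (f : Emb p) {v0 : Vec n} (hc : ∀ x, x ≠ 0 → val f.F x ∈ span ℂ {v0}) :
    ∃ L, ∀ q ∈ f.curve, q.1 = L := by
  refine ⟨span ℂ {v0}, ?_⟩
  rintro q ⟨x, hx, rfl⟩
  exact span_eq_of_mem (f.F_ne x hx) (hc x hx)

theorem of_contr (f : Emb p) (hc : ∃ L, ∀ q ∈ f.curve, q.1 = L) :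
    ∃ v0, v0 ≠ 0 ∧ ∀ x, x ≠ 0 → val f.F x ∈ span ℂ {v0} := by
  obtain ⟨L, hL⟩ := hc
  refine ⟨val f.F ![1, 0], f.F_ne _ (ne10 0), fun x hx => ?_⟩
  have h1 : span ℂ {val f.F ![1, 0]} = L := hL _ ⟨_, ne10 0, rfl⟩
  have h2 : span ℂ {val f.F x} = L := hL _ ⟨_, hx, rfl⟩
  rw [h1, ← h2]
  exact subset_span (by simp)

theorem G_mem_of (f : Emb p) {x : Fin 2 → ℂ} (hx : x ≠ 0) {i : Fin h} {S : Submodule ℂ (Vec n)}
    (h1 : p i ∈ S) (h2 : val f.F x ∈ S) (h3 : val f.F x ∉ span ℂ {p i}) :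
    val (f.G i) x ∈ S := by
  obtain ⟨c, hc⟩ := f.exists_c hx i
  have hc0 : c ≠ 0 := by
    rintro rfl
    rw [zero_smul, sub_zero] at hc
    exact h3 hc
  have h4 : val f.F x - c • val (f.G i) x ∈ S := by
    have : span ℂ {p i} ≤ S := by rw [span_singleton_le_iff_mem]; exact h1
    exact this hc
  have h5 : c⁻¹ • (val f.F x - (val f.F x - c • val (f.G i) x)) ∈ S :=
    S.smul_mem _ (sub_mem h2 h4)
  rwa [sub_sub_cancel, smul_smul, inv_mul_cancel₀ hc0, one_smul] at h5

theorem contr_deg (f : Emb p) {v0 : Vec n} (hv0 : v0 ≠ 0)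
    (hc : ∀ x, x ≠ 0 → val f.F x ∈ span ℂ {v0}) : f.d = 0 := by
  obtain ⟨j, hj⟩ : ∃ j, v0 j ≠ 0 := by
    by_contra hcon
    push Not at hcon
    exact hv0 (funext hcon)
  refine deg_zero_of_no_zero (f.homF j) fun x hx h0 => ?_
  obtain ⟨μ, hμ, he⟩ := exists_scalar (f.F_ne x hx) (hc x hx)
  have h1 := congrFun he j
  change μ * v0 j = eval x (f.F j) at h1
  rw [h0] at h1
  exact mul_ne_zero hμ hj h1

theorem contr_at (f : Emb p) {v0 : Vec n} (hv0 : v0 ≠ 0)
    (hc : ∀ x, x ≠ 0 → val f.F x ∈ span ℂ {v0}) : ∃ i, v0 ∈ span ℂ {p i} := by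
  by_contra hcon
  push Not at hcon
  have h1 : ∀ x, x ≠ 0 → v0 ∈ span ℂ {val f.F x} := fun x hx => mem_symm (f.F_ne x hx) (hc x hx)
  have key := f.inj ![1, 0] ![0, 1] (ne10 0) (ne01 0) ?_ ?_
  · obtain ⟨c, hc⟩ := mem_span_singleton.1 key
    simpa using congrFun hc 1
  · rw [span_eq_of_mem (f.F_ne _ (ne10 0)) (hc _ (ne10 0))]
    exact hc _ (ne01 0)
  · intro i
    refine G_mem_of f (ne01 0) (subset_span (by simp)) ?_ ?_
    · have h2 : v0 ∈ span ℂ {p i, val (f.G i) ![1, 0]} := by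
        have h3 : span ℂ {val f.F ![1, 0]} ≤ span ℂ {p i, val (f.G i) ![1, 0]} := by
          rw [span_singleton_le_iff_mem]; exact f.mem i _ (ne10 0)
        exact h3 (h1 _ (ne10 0))
      have h4 : span ℂ {v0} ≤ span ℂ {p i, val (f.G i) ![1, 0]} := by
        rw [span_singleton_le_iff_mem]; exact h2
      exact h4 (hc _ (ne01 0))
    · intro h2
      apply hcon i
      have h3 : span ℂ {val f.F ![0, 1]} ≤ span ℂ {p i} := by
        rw [span_singleton_le_iff_mem]; exact h2
      exact h3 (h1 _ (ne01 0))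

theorem exists_dual {S : Submodule ℂ (Vec n)} {v : Vec n} (hv : v ∉ S) :
    ∃ l : Vec n →ₗ[ℂ] ℂ, l v ≠ 0 ∧ ∀ w ∈ S, l w = 0 := by
  obtain ⟨l, hl1, hl2⟩ := Submodule.exists_dual_map_eq_bot_of_notMem hv inferInstance
  refine ⟨l, hl1, fun w hw => ?_⟩
  have : l w ∈ S.map l := mem_map_of_mem hw
  rw [hl2] at this
  exact (mem_bot ℂ).1 this

section Contracted

variable (f : Emb p) (hp : DistinctPoints p) (i0 : Fin h)
  (hc : ∀ x, x ≠ 0 → val f.F x ∈ span ℂ {p i0})

include hp hc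

theorem contr_mem {x : Fin 2 → ℂ} (hx : x ≠ 0) : p i0 ∈ span ℂ {val f.F x} :=
  mem_symm (f.F_ne x hx) (hc x hx)

theorem contr_e_ne {j : Fin h} (hj : j ≠ i0) : f.e j = 0 := by
  obtain ⟨l, hl1, hl2⟩ := exists_dual (hp.2 i0 j (Ne.symm hj))
  have hlj : l (p j) = 0 := hl2 _ (subset_span (by simp))
  refine deg_zero_of_no_zero (ap_hom l (f.homG j)) fun x hx h0 => ?_
  rw [eval_ap] at h0
  obtain ⟨c, hcc⟩ := f.exists_c hx j
  obtain ⟨α, hα⟩ := mem_span_singleton.1 hcc
  have h1 := congrArg l hα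
  rw [map_smul, hlj, map_sub, map_smul, h0, smul_zero, smul_zero, sub_zero] at h1
  obtain ⟨μ, hμ, he⟩ := exists_scalar (f.F_ne x hx) (hc x hx)
  rw [← he, map_smul, smul_eq_mul] at h1
  exact mul_ne_zero hμ hl1 h1.symm

theorem contr_e_le (K : Comp f (-1)) : f.e i0 ≤ 1 := by
  classical
  by_contra hcon
  push Not at hcon
  have hd : f.d = 0 := contr_deg f (hp.1 i0) hc
  have hF : ∀ x y, val f.F x = val f.F y :=
    val_const_of_deg_zero (fun j => by have := f.homF j; rwa [hd] at this)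
  have hG : ∀ j, j ≠ i0 → ∀ x y, val (f.G j) x = val (f.G j) y := fun j hj =>
    val_const_of_deg_zero (fun k => by
      have := f.homG j k
      rwa [contr_e_ne f hp i0 hc hj] at this)
  choose c hcc using fun j => f.exists_c (ne10 0) j
  have hcc' : ∀ j, j ≠ i0 → ∀ x, val f.F x - c j • val (f.G j) x ∈ span ℂ {p j} := by
    intro j hj x
    rw [hF x ![1, 0], hG j hj x ![1, 0]]
    exact hcc j
  have hc0 : ∀ j, j ≠ i0 → c j ≠ 0 := by
    intro j hj h0
    have h1 := hcc j
    rw [h0, zero_smul, sub_zero] at h1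
    have h2 := contr_mem f hp i0 hc (ne10 0)
    have h3 : span ℂ {val f.F ![1, 0]} ≤ span ℂ {p j} := by
      rw [span_singleton_le_iff_mem]; exact h1
    exact hp.2 i0 j (Ne.symm hj) (h3 h2)
  -- the tautological section
  let S2 : Sec f (f.e i0) :=
    { V := f.G i0
      W := fun j => if j = i0 then 0 else fun k => C (c j)⁻¹ * f.G i0 k
      hV := fun j => ZHom.of (f.homG i0 j) (by rw [hd]; simp)
      hW := by
        intro j k
        by_cases hj : j = i0
        · simp only [if_pos hj]; exact ZHom.zero _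
        · simp only [if_neg hj]
          refine ZHom.of (((isHomogeneous_C (Fin 2) (c j)⁻¹)).mul (f.homG i0 k)) ?_
          rw [contr_e_ne f hp i0 hc hj]; simp
      tan := by
        intro x hx j
        by_cases hj : j = i0
        · subst hj
          refine ⟨0, ?_, ?_⟩
          · rw [zero_smul, sub_zero]; exact hc x hx
          · rw [zero_smul, sub_zero]; exact subset_span (by simp)
        · refine ⟨c j, hcc' j hj x, ?_⟩
          have e : (fun i => val (if i = i0 then (0 : Fin (n + 1) → Poly2)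
              else fun k => C (c i)⁻¹ * f.G i0 k) x) j = (c j)⁻¹ • val (f.G i0) x := by
            simp only [if_neg hj]
            funext k
            simp [val]
          rw [e, smul_smul, mul_inv_cancel₀ (hc0 j hj), one_smul, sub_self]
          exact zero_mem _ }
  have hS2W0 : ∀ x, val (S2.W i0) x = 0 := by
    intro x
    change val (if i0 = i0 then 0 else _) x = 0
    rw [if_pos rfl, val_zero]
  have hS2Wj : ∀ j, j ≠ i0 → ∀ x, val (S2.W j) x = (c j)⁻¹ • val (f.G i0) x := by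
    intro j hj x
    change val (if j = i0 then (0 : Fin (n + 1) → Poly2) else fun k => C (c j)⁻¹ * f.G i0 k) x = _
    rw [if_neg hj]
    funext k
    simp [val]
  -- constant sections at `i0`
  let S1 : Vec n → Sec f (-(f.e i0 : ℤ)) := fun w =>
    { V := 0
      W := fun j => if j = i0 then sv 1 w else 0
      hV := fun j => ZHom.zero _
      hW := by
        intro j k
        by_cases hj : j = i0
        · subst hj
          simp only [if_true]
          exact ZHom.of (sv_hom (isHomogeneous_one _ _) w k) (by simp)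
        · simp only [if_neg hj]; exact ZHom.zero _
      tan := by
        intro x hx j
        by_cases hj : j = i0
        · subst hj
          refine ⟨0, ?_, ?_⟩
          · rw [zero_smul, sub_zero]; exact hc x hx
          · rw [zero_smul, sub_zero, val_zero]; exact zero_mem _
        · refine ⟨c j, hcc' j hj x, ?_⟩
          simp only [if_neg hj]
          rw [val_zero, smul_zero, sub_zero]
          exact zero_mem _ }
  have hS1W0 : ∀ w x, val ((S1 w).W i0) x = w := by
    intro w x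
    change val (if i0 = i0 then sv 1 w else 0) x = w
    rw [if_pos rfl, val_sv, map_one, one_smul]
  have hS1Wj : ∀ w, ∀ j, j ≠ i0 → ∀ x, val ((S1 w).W j) x = 0 := by
    intro w j hj x
    change val (if j = i0 then sv 1 w else 0) x = 0
    rw [if_neg hj, val_zero]
  have hS1V : ∀ w x, val (S1 w).V x = 0 := fun w x => val_zero x
  obtain ⟨x, hx, hroot⟩ := K.sec_root S2 (by omega)
  obtain ⟨v, w, ht, hne⟩ := K.surj x hx
  apply hne
  have htan0 : v ∈ span ℂ {p i0, val (f.G i0) x} := by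
    obtain ⟨c', a1, a2⟩ := ht i0
    have : c' = 0 := f.c_unique hx i0 a1 (by rw [zero_smul, sub_zero]; exact hc x hx)
    rw [this, zero_smul, sub_zero] at a2
    exact a2
  obtain ⟨α, β, hab⟩ := mem_span_pair.1 htan0
  have t1 := Emb.Tan.sub_smul hx ht (S2.tan x hx) β
  have k1 := K.sub_smul hx ht (S2.tan x hx) β
  rw [hroot, mul_zero, sub_zero] at k1
  have t2 := Emb.Tan.sub_smul hx t1 ((S1 (w i0)).tan x hx) 1
  have k2 := K.sub_smul hx t1 ((S1 (w i0)).tan x hx) 1
  rw [K.sec_zero (S1 (w i0)) (by omega) x hx, mul_zero, sub_zero, k1] at k2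
  rw [← k2]
  refine K.nul x hx _ _ t2 (Emb.nul_of ?_ ?_)
  · rw [hS1V, smul_zero, sub_zero]
    change v - β • val (f.G i0) x ∈ _
    rw [← hab, add_sub_cancel_right]
    exact smul_mem _ _ (contr_mem f hp i0 hc hx)
  · intro j
    by_cases hj : j = i0
    · subst hj
      rw [hS2W0, hS1W0, smul_zero, sub_zero, one_smul, sub_self]
      exact zero_mem _
    · rw [hS2Wj j hj, hS1Wj _ j hj, smul_zero, sub_zero]
      obtain ⟨c', a1, a2⟩ := ht j
      have hcj : c' = c j := f.c_unique hx j a1 (hcc' j hj x)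
      rw [hcj] at a2
      have h1 : p i0 ∈ span ℂ {p j, val (f.G j) x} := by
        have h3 : span ℂ {val f.F x} ≤ span ℂ {p j, val (f.G j) x} := by
          rw [span_singleton_le_iff_mem]; exact f.mem j _ hx
        exact h3 (contr_mem f hp i0 hc hx)
      have h2 := sub_mem ((span ℂ {p j, val (f.G j) x}).smul_mem ((c j)⁻¹ * α) h1)
        ((span ℂ {p j, val (f.G j) x}).smul_mem (c j)⁻¹ a2)
      have h3 : ((c j)⁻¹ * α) • p i0 - (c j)⁻¹ • (v - c j • w j) =
          w j - β • (c j)⁻¹ • val (f.G i0) x := by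
        rw [smul_sub, smul_smul (c j)⁻¹ (c j), inv_mul_cancel₀ (hc0 j hj), one_smul, ← hab,
          smul_add, smul_smul, smul_smul, smul_smul, mul_comm β]
        abel
      rwa [h3] at h2

end Contracted

/-- The numerical class of a contracted (-1)-curve. -/
theorem contr_class (f : Emb p) (hp : DistinctPoints p) (K : Comp f (-1))
    (hc : ∃ L, ∀ q ∈ f.curve, q.1 = L) : f.d ≤ 1 ∧ ∀ i, f.e i ≤ 1 := by
  obtain ⟨v0, hv0, h1⟩ := of_contr f hc
  obtain ⟨i0, hi0⟩ := contr_at f hv0 h1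
  have h2 : ∀ x, x ≠ 0 → val f.F x ∈ span ℂ {p i0} := by
    intro x hx
    have : span ℂ {v0} ≤ span ℂ {p i0} := by rw [span_singleton_le_iff_mem]; exact hi0
    exact this (h1 x hx)
  refine ⟨by rw [contr_deg f hv0 h1]; omega, fun i => ?_⟩
  by_cases hi : i = i0
  · subst hi; exact contr_e_le f hp i h2 K
  · rw [contr_e_ne f hp i0 h2 hi]; omega

end Pool.Agent.H58.MinusOne
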