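import Pool.Agent.H58.MinusOne.Basic

set_option linter.unusedSectionVars false
set_option linter.unusedSimpArgs false

namespace Pool.Agent.H58.MinusOne
open MvPolynomial Submodule

theorem eval_smul_hom {P : Poly2} {m : ℕ} (hP : P.IsHomogeneous m) (c : ℂ) (x : Fin 2 → ℂ) :
    eval (c • x) P = c ^ m * eval x P := by
  rw [eval_eq', eval_eq', Finset.mul_sum]
  refine Finset.sum_congr rfl fun d hd => ?_
  have h1 : d.degree = m := hP.degree_eq_sum_deg_support hd |>.symm
  have h2 : ∏ i, (c • x) i ^ d i = c ^ m * ∏ i, x i ^ d i := by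
    simp only [Pi.smul_apply, smul_eq_mul, mul_pow, Finset.prod_mul_distrib]
    rw [Finset.prod_pow_eq_pow_sum, ← h1, Finsupp.degree_eq_sum]
  rw [h2]; ring

/-- the restriction `t ↦ P (1, t)` -/
noncomputable def dh (P : Poly2) : Polynomial ℂ := aeval ![1, Polynomial.X] P

theorem eval_dh (P : Poly2) (t : ℂ) : (dh P).eval t = eval ![1, t] P := by
  have h1 : (dh P).eval t = aeval (fun i => (![1, Polynomial.X] i : Polynomial ℂ).eval t) P := by
    rw [dh, ← Polynomial.coe_aeval_eq_eval]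
    change (Polynomial.aeval t) ((aeval ![1, Polynomial.X]) P) = _
    rw [← AlgHom.comp_apply, comp_aeval]
  rw [h1, aeval_eq_eval]
  congr 1
  congr 1
  funext i
  fin_cases i <;> simp

/-- the restriction `s ↦ P (s, 1)` -/
noncomputable def dh' (P : Poly2) : Polynomial ℂ := aeval ![Polynomial.X, 1] P

theorem eval_dh' (P : Poly2) (t : ℂ) : (dh' P).eval t = eval ![t, 1] P := by
  have h1 : (dh' P).eval t = aeval (fun i => (![Polynomial.X, 1] i : Polynomial ℂ).eval t) P := by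
    rw [dh', ← Polynomial.coe_aeval_eq_eval]
    change (Polynomial.aeval t) ((aeval ![Polynomial.X, 1]) P) = _
    rw [← AlgHom.comp_apply, comp_aeval]
  rw [h1, aeval_eq_eval]
  congr 1
  congr 1
  funext i
  fin_cases i <;> simp

theorem const_of_no_root (q : Polynomial ℂ) (hq : ∀ t, q.eval t ≠ 0) : ∃ c, ∀ t, q.eval t = c := by
  by_cases hd : q.degree = 0
  · rw [Polynomial.eq_C_of_degree_eq_zero hd]
    exact ⟨q.coeff 0, fun t => by simp⟩
  · obtain ⟨t, ht⟩ := IsAlgClosed.exists_root q hd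
    exact absurd ht (hq t)

theorem ne10 (t : ℂ) : (![1, t] : Fin 2 → ℂ) ≠ 0 := fun h0 => by simpa using congrFun h0 0
theorem ne01 (t : ℂ) : (![t, 1] : Fin 2 → ℂ) ≠ 0 := fun h0 => by simpa using congrFun h0 1

/-- homogeneous of an integral degree -/
def ZHom (P : Poly2) (m : ℤ) : Prop := P = 0 ∨ ∃ k : ℕ, (k : ℤ) = m ∧ P.IsHomogeneous k

theorem ZHom.zero (m : ℤ) : ZHom 0 m := Or.inl rfl

theorem ZHom.of {P : Poly2} {k : ℕ} (hP : P.IsHomogeneous k) {m : ℤ} (hm : (k : ℤ) = m) :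
    ZHom P m := Or.inr ⟨k, hm, hP⟩

theorem ZHom.add {P Q : Poly2} {m : ℤ} (hP : ZHom P m) (hQ : ZHom Q m) : ZHom (P + Q) m := by
  rcases hP with rfl | ⟨k, hk, hP⟩
  · rwa [zero_add]
  rcases hQ with rfl | ⟨l, hl, hQ⟩
  · rw [add_zero]; exact Or.inr ⟨k, hk, hP⟩
  · have : k = l := by omega
    subst this
    exact Or.inr ⟨k, hk, hP.add hQ⟩

theorem ZHom.mul {P Q : Poly2} {m l : ℤ} (hP : ZHom P m) (hQ : ZHom Q l) :
    ZHom (P * Q) (m + l) := by
  rcases hP with rfl | ⟨k, hk, hP⟩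
  · rw [zero_mul]; exact ZHom.zero _
  rcases hQ with rfl | ⟨j, hj, hQ⟩
  · rw [mul_zero]; exact ZHom.zero _
  · exact Or.inr ⟨k + j, by push_cast; omega, hP.mul hQ⟩

theorem ZHom.sum {ι : Type*} (s : Finset ι) (P : ι → Poly2) {m : ℤ}
    (hP : ∀ i ∈ s, ZHom (P i) m) : ZHom (∑ i ∈ s, P i) m := by
  classical
  induction s using Finset.induction_on with
  | empty => rw [Finset.sum_empty]; exact ZHom.zero _
  | insert a s ha ih =>
    rw [Finset.sum_insert ha]
    exact (hP a (Finset.mem_insert_self a s)).add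
      (ih fun i hi => hP i (Finset.mem_insert_of_mem hi))

/-- A regular section of a line bundle of negative degree vanishes. -/
theorem regular_zero {u : (Fin 2 → ℂ) → ℂ} {N : Fin 2 → ℕ} {P : Fin 2 → Poly2} {m : ℤ}
    (hm : m < 0) (hP : ∀ c, ZHom (P c) (N c + m))
    (hu : ∀ c x, x ≠ 0 → x c ^ N c * u x = eval x (P c)) : ∀ x, x ≠ 0 → u x = 0 := by
  have key : ∀ c c' : Fin 2, c ≠ c' → P c = 0 := by
    intro c c' hcc
    by_contra hne
    obtain ⟨k, hk, hPk⟩ := (hP c).resolve_left hne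
    have hid : X c' ^ (N c' + 1) * (P c * X c) = X c ^ (N c + 1) * (P c' * X c') := by
      apply MvPolynomial.funext
      intro x
      simp only [map_mul, map_pow, eval_X]
      by_cases hx : x = 0
      · subst hx; simp
      · rw [← hu c x hx, ← hu c' x hx]; ring
    have hprime : Prime (X c : Poly2) := X_prime
    have hnd : ¬ (X c : Poly2) ∣ X c' ^ (N c' + 1) := by
      rintro ⟨q, hq⟩
      have := congrArg (eval (Pi.single c' (1 : ℂ))) hq
      simp [hcc] at this
    have hdvd : (X c : Poly2) ^ (N c + 1) ∣ P c * X c :=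
      hprime.pow_dvd_of_dvd_mul_left _ hnd ⟨_, hid⟩
    obtain ⟨Q, hQ⟩ := hdvd
    have hX : (X c : Poly2) ≠ 0 := hprime.ne_zero
    have hQ0 : Q ≠ 0 := by
      rintro rfl
      rw [mul_zero] at hQ
      exact mul_ne_zero hne hX hQ
    have h1 := congrArg MvPolynomial.totalDegree hQ
    rw [totalDegree_mul_of_isDomain hne hX,
      totalDegree_mul_of_isDomain (pow_ne_zero _ hX) hQ0, hPk.totalDegree hne, totalDegree_X,
      totalDegree_X_pow] at h1
    omega
  intro x hx
  rcases ne_zero_cases hx with h0 | h0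
  · have h1 := hu 0 x hx
    rw [key 0 1 (by decide), map_zero] at h1
    exact (mul_eq_zero.1 h1).resolve_left (pow_ne_zero _ h0)
  · have h1 := hu 1 x hx
    rw [key 1 0 (by decide), map_zero] at h1
    exact (mul_eq_zero.1 h1).resolve_left (pow_ne_zero _ h0)

/-- A regular section of a line bundle of positive degree has a zero. -/
theorem regular_root {u : (Fin 2 → ℂ) → ℂ} {N : Fin 2 → ℕ} {P : Fin 2 → Poly2} {m : ℤ}
    (hm : 0 < m) (hP : ∀ c, ZHom (P c) (N c + m))
    (hu : ∀ c x, x ≠ 0 → x c ^ N c * u x = eval x (P c)) : ∃ x, x ≠ 0 ∧ u x = 0 := by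
  by_contra hcon
  push Not at hcon
  have hne : P 0 ≠ 0 := by
    intro h0
    have h1 := hu 0 _ (ne10 0)
    rw [h0, map_zero] at h1
    simp only [Matrix.cons_val_zero, one_pow, one_mul] at h1
    exact hcon _ (ne10 0) h1
  obtain ⟨k, hk, hPk⟩ := (hP 0).resolve_left hne
  have e0 : ∀ t, eval ![1, t] (P 0) = u ![1, t] := fun t => by
    rw [← hu 0 _ (ne10 t)]; simp
  have e1 : ∀ t, eval ![t, 1] (P 1) = u ![t, 1] := fun t => by
    rw [← hu 1 _ (ne01 t)]; simp
  obtain ⟨c, hc⟩ := const_of_no_root (dh (P 0)) (fun t => by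
    rw [eval_dh, e0]; exact hcon _ (ne10 t))
  obtain ⟨c', hc'⟩ := const_of_no_root (dh' (P 1)) (fun t => by
    rw [eval_dh', e1]; exact hcon _ (ne01 t))
  have f0 : ∀ t, u ![1, t] = c := fun t => by rw [← e0, ← eval_dh, hc]
  have f1 : ∀ t, u ![t, 1] = c' := fun t => by rw [← e1, ← eval_dh', hc']
  have hcc : c = c' := by rw [← f0 1, ← f1 1]
  have hc0 : c ≠ 0 := by rw [← f0 1]; exact hcon _ (ne10 1)
  have e2 : (![1, 2] : Fin 2 → ℂ) = (2 : ℂ) • ![1 / 2, 1] := by
    funext i; fin_cases i <;> simp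
  have e3 := hu 0 _ (ne10 2)
  have e4 := hu 0 _ (ne01 (1 / 2))
  rw [f0] at e3
  rw [f1] at e4
  simp only [Matrix.cons_val_zero, one_pow, one_mul] at e3 e4
  rw [e2, eval_smul_hom hPk, ← e4, ← hcc] at e3
  have e5 : (2 : ℂ) ^ k = 2 ^ N 0 := by
    have e6 : (2 : ℂ) ^ k * (1 / 2) ^ N 0 = 1 := by
      apply mul_right_cancel₀ hc0
      rw [one_mul]
      rw [mul_assoc]
      exact e3.symm
    rw [one_div, inv_pow] at e6
    have h2 : (2 : ℂ) ^ N 0 ≠ 0 := pow_ne_zero _ two_ne_zero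
    field_simp at e6
    exact e6
  have e7 : ((2 ^ k : ℕ) : ℂ) = ((2 ^ N 0 : ℕ) : ℂ) := by push_cast; exact e5
  have e8 := Nat.pow_right_injective (le_refl 2) (Nat.cast_injective e7)
  omega

theorem exists_zero_form {P : Poly2} {m : ℕ} (hP : P.IsHomogeneous m) (hm : 0 < m) :
    ∃ x, x ≠ 0 ∧ eval x P = 0 := by
  refine regular_root (u := fun x => eval x P) (N := fun _ => 0) (P := fun _ => P) (m := m)
    (by exact_mod_cast hm) (fun c => ZHom.of hP (by simp)) ?_
  intro c x hx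
  simp

theorem deg_zero_of_no_zero {P : Poly2} {m : ℕ} (hP : P.IsHomogeneous m)
    (h0 : ∀ x, x ≠ 0 → eval x P ≠ 0) : m = 0 := by
  by_contra hm
  obtain ⟨x, hx, hx0⟩ := exists_zero_form hP (Nat.pos_of_ne_zero hm)
  exact h0 x hx hx0

/-- a polynomial vanishing off the origin is zero -/
theorem eq_zero_of_off {P : Poly2} (h0 : ∀ x, x ≠ 0 → eval x P = 0) : P = 0 := by
  have h1 : P * X 0 = 0 := by
    apply MvPolynomial.funext
    intro x
    simp only [map_mul, eval_X, map_zero]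
    by_cases hx : x = 0
    · subst hx; simp
    · rw [h0 x hx, zero_mul]
  exact (mul_eq_zero.1 h1).resolve_right (X_ne_zero 0)

end Pool.Agent.H58.MinusOne
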