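import Pool.Agent.H58.MinusOne.Planar

set_option linter.unusedSectionVars false
set_option linter.unusedSimpArgs false

namespace Pool.Agent.H58.MinusOne
open MvPolynomial Submodule

variable {n h : ℕ} {p : Fin h → Vec n}
variable {κ : Type} [Fintype κ] (b : Module.Basis (Fin 3 ⊕ κ) ℂ (Vec n)) (i0 i1 i2 : Fin h) (r : ℕ)

/-- explicit form of tangency -/
def TanX (p : Fin h → Vec n) (x : Fin 2 → ℂ) (v : Vec n) (w : Fin h → Vec n) : Prop :=
  (∃ μ, co b v (Sum.inl 1) - (x 0 ^ (r + 2) + x 1 ^ (r + 2)) * co b (w i0) (Sum.inl 1) = μ * x 0 ∧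
    co b v (Sum.inl 2) - (x 0 ^ (r + 2) + x 1 ^ (r + 2)) * co b (w i0) (Sum.inl 2) = μ * x 1 ∧
    ∀ k, co b v (Sum.inr k) - (x 0 ^ (r + 2) + x 1 ^ (r + 2)) * co b (w i0) (Sum.inr k) = 0) ∧
  (∃ μ, co b v (Sum.inl 0) - x 1 * co b (w i1) (Sum.inl 0) = -(μ * x 0 ^ (r + 2)) ∧
    co b v (Sum.inl 2) - x 1 * co b (w i1) (Sum.inl 2) = μ * (x 0 ^ (r + 2) + x 1 ^ (r + 2)) ∧
    ∀ k, co b v (Sum.inr k) - x 1 * co b (w i1) (Sum.inr k) = 0) ∧
  (∃ μ, co b v (Sum.inl 0) - x 0 * co b (w i2) (Sum.inl 0) = -(μ * (x 1 * x 0 ^ (r + 1))) ∧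
    co b v (Sum.inl 1) - x 0 * co b (w i2) (Sum.inl 1) = μ * (x 0 ^ (r + 2) + x 1 ^ (r + 2)) ∧
    ∀ k, co b v (Sum.inr k) - x 0 * co b (w i2) (Sum.inr k) = 0) ∧
  ∀ i, i ≠ i0 → i ≠ i1 → i ≠ i2 → v - w i ∈ span ℂ {p i, val (plF b r) x}

theorem planar_tan (H : PlHyp b i0 i1 i2 p) {x : Fin 2 → ℂ} (hx : x ≠ 0) (v : Vec n)
    (w : Fin h → Vec n) :
    (planar b i0 i1 i2 r H).Tan x v w ↔ TanX b i0 i1 i2 r p x v w := by
  obtain ⟨f0, f1, f2, f3⟩ := co_val_plF b r x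
  constructor
  · intro ht
    refine ⟨?_, ?_, ?_, ?_⟩
    · obtain ⟨c, h1, h2⟩ := ht i0
      simp only [planar] at h1 h2
      rw [plG_0, ← H.hb0] at h1 h2
      rw [S_b0, co_sub, co_sub, co_smul, co_smul, f1, f2] at h1
      rw [S_G0, co_sub, co_sub, co_smul, co_smul] at h2
      obtain ⟨-, c1, c2, -⟩ := co_val_plG0 b x
      rw [c1, c2] at h1
      have hc : c = x 0 ^ (r + 2) + x 1 ^ (r + 2) := by
        rcases ne_zero_cases hx with h0 | h0
        · exact (mul_right_cancel₀ h0 (sub_eq_zero.1 h1.1)).symm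
        · exact (mul_right_cancel₀ h0 (sub_eq_zero.1 h1.2.1)).symm
      subst hc
      obtain ⟨μ, m1, m2, m3⟩ := h2
      refine ⟨μ, m1, m2, fun k => ?_⟩
      have := m3 k
      rwa [co_sub, co_smul] at this
    · obtain ⟨c, h1, h2⟩ := ht i1
      simp only [planar] at h1 h2
      rw [plG_1 _ _ _ _ _ H.h01, ← H.hb1] at h1 h2
      rw [S_b1, co_sub, co_sub, co_smul, co_smul, f0, f2] at h1
      rw [S_G1, co_sub, co_sub, co_smul, co_smul] at h2
      obtain ⟨c0, -, c2, -⟩ := co_val_plG1 b r x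
      rw [c0, c2] at h1
      have hc : c = x 1 := by
        by_cases hg : x 0 ^ (r + 2) + x 1 ^ (r + 2) = 0
        · obtain ⟨a, -⟩ := pow_add_pow_ne r hx hg
          have h3 : (c - x 1) * x 0 ^ (r + 2) = 0 := by linear_combination h1.1
          exact sub_eq_zero.1 ((mul_eq_zero.1 h3).resolve_right (pow_ne_zero _ a))
        · have h3 : (c - x 1) * (x 0 ^ (r + 2) + x 1 ^ (r + 2)) = 0 := by
            linear_combination -h1.2.1
          exact sub_eq_zero.1 ((mul_eq_zero.1 h3).resolve_right hg)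
      subst hc
      obtain ⟨μ, m1, m2, m3⟩ := h2
      refine ⟨μ, m1, m2, fun k => ?_⟩
      have := m3 k
      rwa [co_sub, co_smul] at this
    · obtain ⟨c, h1, h2⟩ := ht i2
      simp only [planar] at h1 h2
      rw [plG_2 _ _ _ _ _ H.h02 H.h12, ← H.hb2] at h1 h2
      rw [S_b2, co_sub, co_sub, co_smul, co_smul, f0, f1] at h1
      rw [S_G2, co_sub, co_sub, co_smul, co_smul] at h2
      obtain ⟨c0, c1, -, -⟩ := co_val_plG2 b r x
      rw [c0, c1] at h1
      have hc : c = x 0 := by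
        by_cases hg : x 0 ^ (r + 2) + x 1 ^ (r + 2) = 0
        · obtain ⟨a, a'⟩ := pow_add_pow_ne r hx hg
          have h3 : (c - x 0) * (x 1 * x 0 ^ (r + 1)) = 0 := by linear_combination h1.1
          exact sub_eq_zero.1 ((mul_eq_zero.1 h3).resolve_right
            (mul_ne_zero a' (pow_ne_zero _ a)))
        · have h3 : (c - x 0) * (x 0 ^ (r + 2) + x 1 ^ (r + 2)) = 0 := by
            linear_combination -h1.2.1
          exact sub_eq_zero.1 ((mul_eq_zero.1 h3).resolve_right hg)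
      subst hc
      obtain ⟨μ, m1, m2, m3⟩ := h2
      refine ⟨μ, m1, m2, fun k => ?_⟩
      have := m3 k
      rwa [co_sub, co_smul] at this
    · intro i j0 j1 j2
      obtain ⟨c, h1, h2⟩ := ht i
      have hne := (planar b i0 i1 i2 r H).G_ne i x hx
      simp only [planar] at h1 h2 hne
      rw [plG_3 _ _ _ _ _ j0 j1 j2] at h1 h2 hne
      have hc : c = 1 := by
        by_contra hc
        have h5 : (1 - c) • val (plF b r) x ∈ span ℂ {p i} := by
          rw [sub_smul, one_smul]; exact h1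
        have h6 := (span ℂ {p i}).smul_mem (1 - c)⁻¹ h5
        rw [smul_smul, inv_mul_cancel₀ (sub_ne_zero.2 (Ne.symm hc)), one_smul] at h6
        exact hne h6
      rw [hc, one_smul] at h2
      exact h2
  · rintro ⟨⟨μ0, a1, a2, a3⟩, ⟨μ1, b1, b2, b3⟩, ⟨μ2, c1, c2, c3⟩, hrest⟩ i
    by_cases j0 : i = i0
    · subst j0
      refine ⟨x 0 ^ (r + 2) + x 1 ^ (r + 2), ?_, ?_⟩
      · simp only [planar]
        obtain ⟨d0, d1, d2, d3⟩ := co_val_plG0 b x
        rw [plG_0, ← H.hb0, S_b0, co_sub, co_sub, co_smul, co_smul, f1, f2, d1, d2]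
        refine ⟨by ring, by ring, fun k => ?_⟩
        rw [co_sub, co_smul, f3, d3]; ring
      · simp only [planar]
        rw [plG_0, ← H.hb0, S_G0]
        refine ⟨μ0, ?_, ?_, fun k => ?_⟩
        · rw [co_sub, co_smul]; exact a1
        · rw [co_sub, co_smul]; exact a2
        · rw [co_sub, co_smul]; exact a3 k
    by_cases j1 : i = i1
    · subst j1
      refine ⟨x 1, ?_, ?_⟩
      · simp only [planar]
        obtain ⟨d0, d1, d2, d3⟩ := co_val_plG1 b r x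
        rw [plG_1 _ _ _ _ _ H.h01, ← H.hb1, S_b1, co_sub, co_sub, co_smul, co_smul, f0, f2, d0, d2]
        refine ⟨by ring, by ring, fun k => ?_⟩
        rw [co_sub, co_smul, f3, d3]; ring
      · simp only [planar]
        rw [plG_1 _ _ _ _ _ H.h01, ← H.hb1, S_G1]
        refine ⟨μ1, ?_, ?_, fun k => ?_⟩
        · rw [co_sub, co_smul]; exact b1
        · rw [co_sub, co_smul]; exact b2
        · rw [co_sub, co_smul]; exact b3 k
    by_cases j2 : i = i2
    · subst j2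
      refine ⟨x 0, ?_, ?_⟩
      · simp only [planar]
        obtain ⟨d0, d1, d2, d3⟩ := co_val_plG2 b r x
        rw [plG_2 _ _ _ _ _ H.h02 H.h12, ← H.hb2, S_b2, co_sub, co_sub, co_smul, co_smul, f0, f1,
          d0, d1]
        refine ⟨by ring, by ring, fun k => ?_⟩
        rw [co_sub, co_smul, f3, d3]; ring
      · simp only [planar]
        rw [plG_2 _ _ _ _ _ H.h02 H.h12, ← H.hb2, S_G2]
        refine ⟨μ2, ?_, ?_, fun k => ?_⟩
        · rw [co_sub, co_smul]; exact c1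
        · rw [co_sub, co_smul]; exact c2
        · rw [co_sub, co_smul]; exact c3 k
    · refine ⟨1, ?_, ?_⟩
      · simp only [planar]
        rw [plG_3 _ _ _ _ _ j0 j1 j2, one_smul, sub_self]
        exact zero_mem _
      · simp only [planar]
        rw [plG_3 _ _ _ _ _ j0 j1 j2, one_smul]
        exact hrest i j0 j1 j2

/-- first local expression, `x 0` times the planar component -/
noncomputable def P0 (x : Fin 2 → ℂ) (w0 w1 : Vec n) : ℂ :=
  (x 0 ^ (r + 2) + x 1 ^ (r + 2)) * co b w1 (Sum.inl 0) + x 0 ^ (r + 2) * co b w1 (Sum.inl 2) +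
    (r + 2) * x 0 ^ (r + 1) * x 1 ^ (r + 1) *
      (x 1 * co b w0 (Sum.inl 1) - x 0 * co b w0 (Sum.inl 2))

/-- second local expression, `x 1` times the planar component -/
noncomputable def P1 (x : Fin 2 → ℂ) (w0 w2 : Vec n) : ℂ :=
  (x 0 ^ (r + 2) + x 1 ^ (r + 2)) * co b w2 (Sum.inl 0) +
    x 1 * x 0 ^ (r + 1) * co b w2 (Sum.inl 1) +
    ((r + 1) * x 0 ^ r * x 1 ^ (r + 2) - x 0 ^ (2 * r + 2)) *
      (x 1 * co b w0 (Sum.inl 1) - x 0 * co b w0 (Sum.inl 2))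

theorem P_rel {x : Fin 2 → ℂ} {v : Vec n} {w : Fin h → Vec n}
    (ht : TanX b i0 i1 i2 r p x v w) :
    x 1 * P0 b r x (w i0) (w i1) = x 0 * P1 b r x (w i0) (w i2) := by
  obtain ⟨⟨μ0, a1, a2, a3⟩, ⟨μ1, b1, b2, b3⟩, ⟨μ2, c1, c2, c3⟩, -⟩ := ht
  unfold P0 P1
  have e : x 0 ^ (2 * r + 2) = x 0 ^ (r + 1) * x 0 ^ (r + 1) := by ring
  have e1 : x 0 ^ (r + 2) = x 0 * x 0 ^ (r + 1) := by ring
  have e2 : x 1 ^ (r + 2) = x 1 * x 1 ^ (r + 1) := by ring
  have e3 : x 0 ^ (r + 1) = x 0 * x 0 ^ r := by ring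
  linear_combination (-(x 0 ^ (r + 2) + x 1 ^ (r + 2))) * b1 - x 0 ^ (r + 2) * b2
    + (x 0 ^ (r + 2) + x 1 ^ (r + 2)) * c1 + x 1 * x 0 ^ (r + 1) * c2
    + x 0 ^ (r + 1) * (x 0 * a2 - x 1 * a1)

theorem Q_rel {x : Fin 2 → ℂ} {v : Vec n} {w : Fin h → Vec n}
    (ht : TanX b i0 i1 i2 r p x v w) (k : κ) :
    x 1 ^ (r + 3) * (co b (w i1) (Sum.inr k) - x 1 ^ (r + 1) * co b (w i0) (Sum.inr k)) =
    x 0 ^ (r + 3) * (co b (w i2) (Sum.inr k) - x 0 ^ (r + 1) * co b (w i0) (Sum.inr k)) := by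
  obtain ⟨⟨μ0, a1, a2, a3⟩, ⟨μ1, b1, b2, b3⟩, ⟨μ2, c1, c2, c3⟩, -⟩ := ht
  linear_combination (-x 1 ^ (r + 2)) * b3 k + x 0 ^ (r + 2) * c3 k
    + (x 1 ^ (r + 2) - x 0 ^ (r + 2)) * a3 k

/-- The trivialising maps of the normal bundle of the plane curve. -/
noncomputable def plTheta (x : Fin 2 → ℂ) (_v : Vec n) (w : Fin h → Vec n) : Option κ → ℂ
  | none => if x 0 ≠ 0 then P0 b r x (w i0) (w i1) / x 0 else P1 b r x (w i0) (w i2) / x 1
  | some k => if x 0 ≠ 0 then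
      (co b (w i1) (Sum.inr k) - x 1 ^ (r + 1) * co b (w i0) (Sum.inr k)) / x 0 ^ (r + 3)
    else (co b (w i2) (Sum.inr k) - x 0 ^ (r + 1) * co b (w i0) (Sum.inr k)) / x 1 ^ (r + 3)

theorem plTheta_none {x : Fin 2 → ℂ} (hx : x ≠ 0) {v : Vec n} {w : Fin h → Vec n}
    (ht : TanX b i0 i1 i2 r p x v w) :
    x 0 * plTheta b i0 i1 i2 r x v w none = P0 b r x (w i0) (w i1) ∧
    x 1 * plTheta b i0 i1 i2 r x v w none = P1 b r x (w i0) (w i2) := by
  have hr := P_rel b i0 i1 i2 r ht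
  unfold plTheta
  by_cases h0 : x 0 ≠ 0
  · simp only [if_pos h0]
    refine ⟨mul_div_cancel₀ _ h0, ?_⟩
    rw [mul_div_assoc', hr, mul_div_cancel_left₀ _ h0]
  · simp only [if_neg h0]
    have h1 := (ne_zero_cases hx).resolve_left h0
    refine ⟨?_, mul_div_cancel₀ _ h1⟩
    rw [mul_div_assoc', ← hr, mul_div_cancel_left₀ _ h1]

theorem plTheta_some {x : Fin 2 → ℂ} (hx : x ≠ 0) {v : Vec n} {w : Fin h → Vec n}
    (ht : TanX b i0 i1 i2 r p x v w) (k : κ) :
    x 0 ^ (r + 3) * plTheta b i0 i1 i2 r x v w (some k) =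
      co b (w i1) (Sum.inr k) - x 1 ^ (r + 1) * co b (w i0) (Sum.inr k) ∧
    x 1 ^ (r + 3) * plTheta b i0 i1 i2 r x v w (some k) =
      co b (w i2) (Sum.inr k) - x 0 ^ (r + 1) * co b (w i0) (Sum.inr k) := by
  have hr := Q_rel b i0 i1 i2 r ht k
  unfold plTheta
  by_cases h0 : x 0 ≠ 0
  · simp only [if_pos h0]
    have h0' := pow_ne_zero (r + 3) h0
    refine ⟨mul_div_cancel₀ _ h0', ?_⟩
    rw [mul_div_assoc', hr, mul_div_cancel_left₀ _ h0']
  · simp only [if_neg h0]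
    have h1' := pow_ne_zero (r + 3) ((ne_zero_cases hx).resolve_left h0)
    refine ⟨?_, mul_div_cancel₀ _ h1'⟩
    rw [mul_div_assoc', ← hr, mul_div_cancel_left₀ _ h1']

theorem prop_vec {a b c d : ℂ} (hcd : ¬ (c = 0 ∧ d = 0)) (h : a * d = b * c) :
    ∃ μ, a = μ * c ∧ b = μ * d := by
  by_cases hc : c = 0
  · have hd : d ≠ 0 := fun hd => hcd ⟨hc, hd⟩
    refine ⟨b / d, ?_, (div_mul_cancel₀ _ hd).symm⟩
    rw [hc, mul_zero] at h ⊢
    exact (mul_eq_zero.1 h).resolve_right hd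
  · refine ⟨a / c, (div_mul_cancel₀ _ hc).symm, ?_⟩
    field_simp
    linear_combination -h

theorem nul_of_theta (H : PlHyp b i0 i1 i2 p) {x : Fin 2 → ℂ} (hx : x ≠ 0) {v : Vec n}
    {w : Fin h → Vec n} (ht : TanX b i0 i1 i2 r p x v w)
    (hz : ∀ k, plTheta b i0 i1 i2 r x v w k = 0) : (planar b i0 i1 i2 r H).Nul x v w := by
  have hP := plTheta_none b i0 i1 i2 r hx ht
  rw [hz none, mul_zero, mul_zero] at hP
  obtain ⟨hP0, hP1⟩ := hP
  have hQ : ∀ k, co b (w i0) (Sum.inr k) = 0 ∧ co b (w i1) (Sum.inr k) = 0 ∧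
      co b (w i2) (Sum.inr k) = 0 ∧ co b v (Sum.inr k) = 0 := by
    intro k
    obtain ⟨q1, q2⟩ := plTheta_some b i0 i1 i2 r hx ht k
    rw [hz (some k), mul_zero] at q1 q2
    obtain ⟨⟨μ0, -, -, a3⟩, ⟨μ1, -, -, b3⟩, ⟨μ2, -, -, c3⟩, -⟩ := ht
    have a := a3 k
    have b' := b3 k
    have c := c3 k
    have e1 : x 0 ^ (r + 2) * co b (w i0) (Sum.inr k) = 0 := by
      linear_combination b' - a + x 1 * q1.symm
    have e2 : x 1 ^ (r + 2) * co b (w i0) (Sum.inr k) = 0 := by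
      linear_combination c - a + x 0 * q2.symm
    have w0 : co b (w i0) (Sum.inr k) = 0 := by
      rcases ne_zero_cases hx with h0 | h0
      · exact (mul_eq_zero.1 e1).resolve_left (pow_ne_zero _ h0)
      · exact (mul_eq_zero.1 e2).resolve_left (pow_ne_zero _ h0)
    rw [w0, mul_zero, sub_zero] at q1 q2
    refine ⟨w0, q1.symm, q2.symm, ?_⟩
    rw [w0, mul_zero, sub_zero] at a
    exact a
  obtain ⟨⟨μ0, a1, a2, a3⟩, ⟨μ1, b1, b2, b3⟩, ⟨μ2, c1, c2, c3⟩, hrest⟩ := ht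
  have hQ0 := fun k => (hQ k).1
  have hQ1 := fun k => (hQ k).2.1
  have hQ2 := fun k => (hQ k).2.2.1
  have hQv := fun k => (hQ k).2.2.2
  unfold P0 at hP0
  unfold P1 at hP1
  replace hP0 := hP0.symm
  replace hP1 := hP1.symm
  set s := x 0 with hs
  set t := x 1 with htt
  set u0 := co b (w i0) (Sum.inl 1) with hu0
  set u1 := co b (w i0) (Sum.inl 2) with hu1
  refine ⟨![u0, u1], ?_⟩
  have hvF : v - der (plF b r) x ![u0, u1] ∈ span ℂ {val (plF b r) x} := by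
    obtain ⟨d0, d1, d2, d3⟩ := co_der_plF b r x ![u0, u1]
    simp only [Matrix.cons_val_zero, Matrix.cons_val_one] at d0 d1 d2
    rw [← hs, ← htt] at d0 d1 d2
    rw [S_F, ← hs, ← htt]
    by_cases hg : s ^ (r + 2) + t ^ (r + 2) = 0
    · obtain ⟨sn, tn⟩ := pow_add_pow_ne r hx hg
      rw [← hs] at sn
      rw [← htt] at tn
      have hμ : μ0 = (r + 2) * (s ^ (r + 1) * u0 + t ^ (r + 1) * u1) := by
        have h1 : s ^ (r + 2) * t * (μ0 - (r + 2) * (s ^ (r + 1) * u0 + t ^ (r + 1) * u1)) = 0 := by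
          have e1 : s ^ (r + 2) = s * s ^ (r + 1) := by ring
          have hgt : t ^ (r + 2) = - s ^ (r + 2) := by linear_combination hg
          linear_combination t * hP0 - s ^ (r + 2) * a2 + s ^ (r + 2) * b2
            - (t * co b (w i1) (Sum.inl 0)) * hg + s ^ (r + 2) * (μ1 - u1) * hg
            - ((r + 2) * s ^ (r + 1) * t * u0) * hg
        have h2 : s ^ (r + 2) * t ≠ 0 := mul_ne_zero (pow_ne_zero _ sn) tn
        exact sub_eq_zero.1 ((mul_eq_zero.1 h1).resolve_left h2)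
      refine ⟨-((co b v (Sum.inl 0) - co b (der (plF b r) x ![u0, u1]) (Sum.inl 0)) /
        (s ^ (r + 2) * t)), ?_, ?_, ?_, fun k => ?_⟩
      · rw [co_sub]
        have h2 : s ^ (r + 2) * t ≠ 0 := mul_ne_zero (pow_ne_zero _ sn) tn
        field_simp
      · rw [co_sub, d1, hg]
        linear_combination a1 + s * hμ + u0 * hg
      · rw [co_sub, d2, hg]
        linear_combination a2 + t * hμ + u1 * hg
      · rw [co_sub, hQv, d3, sub_zero]
    · refine ⟨(μ0 - (r + 2) * (s ^ (r + 1) * u0 + t ^ (r + 1) * u1)) /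
        (s ^ (r + 2) + t ^ (r + 2)), ?_, ?_, ?_, fun k => ?_⟩
      · rw [co_sub, d0]
        field_simp
        linear_combination t * hP0 + (s ^ (r + 2) + t ^ (r + 2)) * b1 + s ^ (r + 2) * (b2 - a2)
      · rw [co_sub, d1]
        field_simp
        linear_combination a1
      · rw [co_sub, d2]
        field_simp
        linear_combination a2
      · rw [co_sub, hQv, d3, sub_zero]
  refine ⟨hvF, ?_⟩
  intro i
  by_cases j0 : i = i0
  · subst j0
    simp only [planar]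
    obtain ⟨-, d1, d2, d3⟩ := co_der_plG0 b x ![u0, u1]
    rw [plG_0, ← H.hb0, S_G0]
    refine ⟨0, ?_, ?_, fun k => ?_⟩
    · rw [co_sub, d1, ← hu0]; simp
    · rw [co_sub, d2, ← hu1]; simp
    · rw [co_sub, d3, hQ0, sub_zero]
  by_cases j1 : i = i1
  · subst j1
    simp only [planar]
    obtain ⟨d0, -, d2, d3⟩ := co_der_plG1 b r x ![u0, u1]
    simp only [Matrix.cons_val_zero, Matrix.cons_val_one] at d0 d2
    rw [← hs] at d0
    rw [← hs, ← htt] at d2
    rw [plG_1 _ _ _ _ _ H.h01, ← H.hb1, S_G1, ← hs, ← htt]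
    obtain ⟨μ, m1, m2⟩ := prop_vec (a := co b (w i - der (plG1 b r) x ![u0, u1]) (Sum.inl 0))
      (b := co b (w i - der (plG1 b r) x ![u0, u1]) (Sum.inl 2)) (c := -(s ^ (r + 2)))
      (d := s ^ (r + 2) + t ^ (r + 2)) (by
        rintro ⟨e1, e2⟩
        obtain ⟨sn, -⟩ := pow_add_pow_ne r hx e2
        exact pow_ne_zero _ sn (neg_eq_zero.1 e1)) (by
        rw [co_sub, co_sub, d0, d2]
        linear_combination hP0)
    refine ⟨μ, by rw [m1]; ring, m2, fun k => ?_⟩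
    rw [co_sub, d3, hQ1, sub_zero]
  by_cases j2 : i = i2
  · subst j2
    simp only [planar]
    obtain ⟨d0, d1, -, d3⟩ := co_der_plG2 b r x ![u0, u1]
    simp only [Matrix.cons_val_zero, Matrix.cons_val_one] at d0 d1
    rw [← hs, ← htt] at d0
    rw [← hs, ← htt] at d1
    rw [plG_2 _ _ _ _ _ H.h02 H.h12, ← H.hb2, S_G2, ← hs, ← htt]
    obtain ⟨μ, m1, m2⟩ := prop_vec (a := co b (w i - der (plG2 b r) x ![u0, u1]) (Sum.inl 0))
      (b := co b (w i - der (plG2 b r) x ![u0, u1]) (Sum.inl 1)) (c := -(t * s ^ (r + 1)))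
      (d := s ^ (r + 2) + t ^ (r + 2)) (by
        rintro ⟨e1, e2⟩
        obtain ⟨sn, tn⟩ := pow_add_pow_ne r hx e2
        exact mul_ne_zero tn (pow_ne_zero _ sn) (neg_eq_zero.1 e1)) (by
        rw [co_sub, co_sub, d0, d1]
        linear_combination hP1)
    refine ⟨μ, by rw [m1]; ring, m2, fun k => ?_⟩
    rw [co_sub, d3, hQ2, sub_zero]
  · simp only [planar]
    rw [plG_3 _ _ _ _ _ j0 j1 j2]
    have h1 := hrest i j0 j1 j2
    have h2 : v - der (plF b r) x ![u0, u1] ∈ span ℂ {p i, val (plF b r) x} :=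
      span_mono (by simp) hvF
    have := sub_mem h2 h1
    have e : v - der (plF b r) x ![u0, u1] - (v - w i) = w i - der (plF b r) x ![u0, u1] := by
      abel
    rwa [e] at this

end Pool.Agent.H58.MinusOne
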