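import Pool.Agent.H58.MinusOne.Finite
import Pool.Agent.H58.MinusOne.Planar2

set_option linter.unusedSectionVars false
set_option linter.unusedSimpArgs false

namespace Pool.Agent.H58.MinusOne
open MvPolynomial Submodule

variable {n : ℕ}

section
variable {p : Fin 2 → Vec n} {κ : Type} [Fintype κ] (b : Module.Basis (Fin 2 ⊕ κ) ℂ (Vec n))

theorem mem_W (hb : ∀ i, b (Sum.inl i) = p i) (v : Vec n) :
    v ∈ span ℂ (Set.range p) ↔ ∀ k, b.coord (Sum.inr k) v = 0 := by
  constructor
  · intro hv k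
    have : span ℂ (Set.range p) ≤ LinearMap.ker (b.coord (Sum.inr k)) := by
      rw [span_le]
      rintro _ ⟨i, rfl⟩
      change b.coord (Sum.inr k) (p i) = 0
      rw [← hb i]
      simp [Finsupp.single_apply]
    exact this hv
  · intro hv
    have h1 : v = b.coord (Sum.inl 0) v • p 0 + b.coord (Sum.inl 1) v • p 1 := by
      apply b.ext_elem
      rintro (j | k)
      · rw [← hb 0, ← hb 1]
        fin_cases j
        · simp [Finsupp.single_apply]
        · simp [Finsupp.single_apply]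
      · rw [← hb 0, ← hb 1]
        have := hv k
        simp only [Module.Basis.coord_apply] at this
        rw [this]
        simp [Finsupp.single_apply]
    rw [h1]
    exact add_mem (smul_mem _ _ (subset_span ⟨0, rfl⟩)) (smul_mem _ _ (subset_span ⟨1, rfl⟩))

theorem W_line (hb : ∀ i, b (Sum.inl i) = p i) {v z : Vec n} (hv0 : v ≠ 0)
    (hv : v ∈ span ℂ (Set.range p)) (hz : z ∈ span ℂ (Set.range p))
    (hdet : b.coord (Sum.inl 0) z * b.coord (Sum.inl 1) v =
      b.coord (Sum.inl 1) z * b.coord (Sum.inl 0) v) : z ∈ span ℂ {v} := by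
  rw [mem_W b hb] at hv hz
  obtain ⟨μ, h1, h2⟩ := prop_vec (c := b.coord (Sum.inl 0) v) (d := b.coord (Sum.inl 1) v)
    (by
      rintro ⟨e0, e1⟩
      apply hv0
      apply b.ext_elem
      rintro (j | k)
      · fin_cases j
        · simpa using e0
        · simpa using e1
      · simpa using hv k) hdet
  rw [mem_span_coord b]
  refine ⟨μ, ?_⟩
  rintro (j | k)
  · fin_cases j
    · exact h1
    · exact h2
  · rw [hv k, hz k, mul_zero]

end

section
variable {p : Fin 2 → Vec n} (f : Emb p) (hp : DistinctPoints p) (K : Comp f (-1))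
  (hnc : ¬ ∃ L, ∀ q ∈ f.curve, q.1 = L)

include K hnc

theorem nc_out (i : Fin 2) : ∃ x, x ≠ 0 ∧ val f.F x ∉ span ℂ {p i} := by
  by_contra hcon
  push Not at hcon
  exact hnc (contr_of f hcon)

theorem nc_G (i : Fin 2) {x : Fin 2 → ℂ} (hx : x ≠ 0) :
    val (f.G i) x ∈ span ℂ (Set.range p) := by
  by_contra hcon
  obtain ⟨l, hl1, hl2⟩ := exists_dual hcon
  obtain ⟨x1, hx1, hout⟩ := nc_out f K hnc i
  obtain ⟨m, hm1, hm2⟩ := exists_dual hout
  have hprod : ap l (f.G i) * ap m f.F = 0 := by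
    apply eq_zero_of_off
    intro y hy
    rw [map_mul, eval_ap, eval_ap]
    by_cases h0 : val f.F y ∈ span ℂ {p i}
    · rw [hm2 _ h0, mul_zero]
    · have := G_mem_of f hy (subset_span ⟨i, rfl⟩ : p i ∈ span ℂ (Set.range p)) (K.F_mem hy) h0
      rw [hl2 _ this, zero_mul]
  rcases mul_eq_zero.1 hprod with h0 | h0
  · have := eval_ap l (f.G i) x
    rw [h0, map_zero] at this
    exact hl1 this.symm
  · have := eval_ap m f.F x1
    rw [h0, map_zero] at this
    exact hm1 this.symm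

theorem nc_deg : 0 < f.d := by
  by_contra hd
  have hd : f.d = 0 := by omega
  apply hnc
  refine contr_of f (v0 := val f.F ![1, 0]) fun x hx => ?_
  rw [val_const_of_deg_zero (fun j => by have := f.homF j; rwa [hd] at this) x ![1, 0]]
  exact subset_span (by simp)

include hp

theorem li2 : LinearIndependent ℂ p := by
  have e : p = ![p 0, p 1] := by
    funext i; fin_cases i <;> rfl
  rw [e, LinearIndependent.pair_iff' (hp.1 0)]
  intro a ha
  exact hp.2 1 0 (by decide) (mem_span_singleton.2 ⟨a, ha⟩)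

theorem nc_M (i : Fin 2) {x : Fin 2 → ℂ} (hx : x ≠ 0) :
    span ℂ {p i, val (f.G i) x} = span ℂ (Set.range p) := by
  apply Submodule.eq_of_le_of_finrank_eq
  · rw [span_le]
    rintro z (rfl | hz)
    · exact subset_span ⟨i, rfl⟩
    · rw [Set.mem_singleton_iff.1 hz]
      exact nc_G f K hnc i hx
  · have h1 := (curve_subset hp f ⟨x, hx, rfl⟩).2 i
    have h2 := finrank_span_eq_card (li2 f hp K hnc)
    rw [h2, Fintype.card_fin]
    exact h1.1

theorem nc_curve : f.curve = {q | Module.finrank ℂ q.1 = 1 ∧ q.1 ≤ span ℂ (Set.range p) ∧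
    ∀ i, q.2 i = span ℂ (Set.range p)} := by
  obtain ⟨κ, _, b, hb, -⟩ := exists_basis p (li2 f hp K hnc)
  apply Set.Subset.antisymm
  · rintro q ⟨x, hx, rfl⟩
    refine ⟨(curve_subset hp f ⟨x, hx, rfl⟩).1, ?_, fun i => nc_M f hp K hnc i hx⟩
    change span ℂ {val f.F x} ≤ _
    rw [span_singleton_le_iff_mem]
    exact K.F_mem hx
  · rintro ⟨L, M⟩ ⟨h1, h2, h3⟩
    simp only at h1 h2 h3
    obtain ⟨⟨v, hvL⟩, hv0, hspan⟩ := finrank_eq_one_iff'.1 h1
    have hv0' : v ≠ 0 := fun h0 => hv0 (Subtype.ext h0)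
    have hL : L = span ℂ {v} := by
      apply le_antisymm
      · intro z hz
        obtain ⟨c, hc⟩ := hspan ⟨z, hz⟩
        exact mem_span_singleton.2 ⟨c, congrArg Subtype.val hc⟩
      · rw [span_singleton_le_iff_mem]; exact hvL
    have hvW := h2 hvL
    obtain ⟨x, hx, hx0⟩ := exists_zero_form
      (ap_hom (b.coord (Sum.inl 1) v • b.coord (Sum.inl 0) -
        b.coord (Sum.inl 0) v • b.coord (Sum.inl 1)) f.homF) (nc_deg f K hnc)
    rw [eval_ap] at hx0
    simp only [LinearMap.sub_apply, LinearMap.smul_apply, smul_eq_mul] at hx0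
    have hmem : val f.F x ∈ span ℂ {v} :=
      W_line b hb hv0' hvW (K.F_mem hx) (by linear_combination hx0)
    refine ⟨x, hx, ?_⟩
    apply Prod.ext
    · change L = span ℂ {val f.F x}
      rw [hL, span_eq_of_mem (f.F_ne x hx) hmem]
    · funext i
      change M i = span ℂ {p i, val (f.G i) x}
      rw [h3 i, nc_M f hp K hnc i hx]

theorem nc_e (i : Fin 2) : f.e i = 0 := by
  obtain ⟨κ, _, b, hb, -⟩ := exists_basis p (li2 f hp K hnc)
  obtain ⟨j, hj⟩ : ∃ j : Fin 2, j ≠ i := by
    fin_cases i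
    · exact ⟨1, by decide⟩
    · exact ⟨0, by decide⟩
  refine deg_zero_of_no_zero (ap_hom (b.coord (Sum.inl j)) (f.homG i)) fun x hx h0 => ?_
  rw [eval_ap] at h0
  apply f.G_ne i x hx
  have hpi : p i ∈ span ℂ (Set.range p) := subset_span ⟨i, rfl⟩
  refine W_line b hb (hp.1 i) hpi (nc_G f K hnc i hx) ?_
  have h1 : b.coord (Sum.inl j) (p i) = 0 := by
    rw [← hb i]
    simp [Finsupp.single_apply, Ne.symm hj]
  fin_cases j
  · simp only [Fin.zero_eta] at h0 h1
    rw [h0, h1, zero_mul, mul_zero]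
  · simp only [Fin.mk_one] at h0 h1
    rw [h0, h1, zero_mul, mul_zero]

theorem nc_d : f.d = 1 := by
  obtain ⟨κ, _, b, hb, -⟩ := exists_basis p (li2 f hp K hnc)
  have hpos := nc_deg f K hnc
  by_contra hne
  obtain ⟨m, hm⟩ : ∃ m, f.d = m + 1 + 1 := ⟨f.d - 2, by omega⟩
  have hx0 := ne01 0
  set v := val f.F ![0, 1] with hv
  have hv0 : v ≠ 0 := f.F_ne _ hx0
  set l : Vec n →ₗ[ℂ] ℂ := b.coord (Sum.inl 1) v • b.coord (Sum.inl 0) -
        b.coord (Sum.inl 0) v • b.coord (Sum.inl 1) with hl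
  have hlz : ∀ z, l z = b.coord (Sum.inl 1) v * b.coord (Sum.inl 0) z -
      b.coord (Sum.inl 0) v * b.coord (Sum.inl 1) z := fun z => by
    rw [hl]; simp only [LinearMap.sub_apply, LinearMap.smul_apply, smul_eq_mul]
  have hhom := ap_hom l f.homF
  obtain ⟨c, hc⟩ := const_of_no_root (dh (ap l f.F)) (by
    intro t h0
    rw [eval_dh, eval_ap, hlz] at h0
    have h1 : val f.F ![1, t] ∈ span ℂ {v} :=
      W_line b hb hv0 (K.F_mem hx0) (K.F_mem (ne10 t)) (by linear_combination h0)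
    have h2 := f.inj ![0, 1] ![1, t] hx0 (ne10 t) h1 (fun i => by
      rw [nc_M f hp K hnc i hx0]
      exact nc_G f K hnc i (ne10 t))
    obtain ⟨s, hs⟩ := mem_span_singleton.1 h2
    have := congrFun hs 0
    simp at this)
  have hpoly : ap l f.F = C c * X 0 ^ (m + 1 + 1) := by
    have h1 : ap l f.F * X 0 = C c * X 0 ^ (m + 1 + 1) * X 0 := by
      apply MvPolynomial.funext
      intro x
      simp only [map_mul, eval_X, map_pow, eval_C]
      by_cases h0 : x 0 = 0
      · rw [h0]; simp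
      · have h2 : x = x 0 • ![1, x 1 / x 0] := by
          funext i
          fin_cases i
          · simp
          · simp [mul_div_cancel₀ _ h0]
        have h3 : eval x (ap l f.F) = x 0 ^ (m + 1 + 1) * c := by
          conv_lhs => rw [h2]
          rw [eval_smul_hom hhom, ← eval_dh, hc, hm]
        rw [h3]; ring
    exact mul_right_cancel₀ (X_ne_zero 0) h1
  have hD : D (ap l f.F) ![0, 1] ![1, 0] = 0 := by
    rw [hpoly, D_C_mul, D_X0_pow]
    simp
  rw [D_ap, hlz] at hD
  have hderW : der f.F ![0, 1] ![1, 0] ∈ span ℂ (Set.range p) := by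
    rw [mem_W b hb]
    intro k
    have h1 : ap (b.coord (Sum.inr k)) f.F = 0 := by
      apply eq_zero_of_off
      intro y hy
      rw [eval_ap]
      exact (mem_W b hb _).1 (K.F_mem hy) k
    rw [← D_ap, h1]
    simp [D]
  have hderG : ∀ i, der (f.G i) ![0, 1] ![1, 0] ∈ span ℂ (Set.range p) := by
    intro i
    rw [mem_W b hb]
    intro k
    have h1 : ap (b.coord (Sum.inr k)) (f.G i) = 0 := by
      apply eq_zero_of_off
      intro y hy
      rw [eval_ap]
      exact (mem_W b hb _).1 (nc_G f K hnc i hy) k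
    rw [← D_ap, h1]
    simp [D]
  have h4 := f.imm ![0, 1] ![1, 0] hx0
    (W_line b hb hv0 (K.F_mem hx0) hderW (by linear_combination hD))
    (fun i => by rw [nc_M f hp K hnc i hx0]; exact hderG i)
  obtain ⟨s, hs⟩ := mem_span_singleton.1 h4
  have := congrFun hs 0
  simp at this

end

/-- h = 0: no (-1)-curves -/
theorem zero_empty {p : Fin 0 → Vec n} (f : Emb p) (K : Comp f (-1)) : False := by
  have h1 := K.F_mem (ne10 0)
  rw [Set.range_eq_empty, span_empty, mem_bot] at h1
  exact f.F_ne _ (ne10 0) h1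

/-- h = 1: all (-1)-curves are contracted -/
theorem one_contr {p : Fin 1 → Vec n} (f : Emb p) (K : Comp f (-1)) :
    ∃ L, ∀ q ∈ f.curve, q.1 = L := by
  refine contr_of f (v0 := p 0) fun x hx => ?_
  have h1 := K.F_mem hx
  have h2 : Set.range p = {p 0} := by
    ext z
    constructor
    · rintro ⟨i, rfl⟩
      rw [Subsingleton.elim i 0]; rfl
    · rintro rfl
      exact ⟨0, rfl⟩
  rwa [h2] at h1

theorem noncontracted_finite {h : ℕ} {p : Fin h → Vec n} (hh : h ≤ 2) (hp : DistinctPoints p) :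
    {C | IsMinusOneCurve p C ∧ ¬ ∃ L, ∀ q ∈ C, q.1 = L}.Finite := by
  interval_cases h
  · refine Set.Finite.subset Set.finite_empty ?_
    rintro C ⟨⟨-, f, hf, rfl⟩, hnc⟩
    obtain ⟨K⟩ := hf.comp
    exact (zero_empty f K).elim
  · refine Set.Finite.subset Set.finite_empty ?_
    rintro C ⟨⟨-, f, hf, rfl⟩, hnc⟩
    obtain ⟨K⟩ := hf.comp
    exact hnc (one_contr f K)
  · refine Set.Finite.subset (Set.finite_singleton {q : Amb n 2 | Module.finrank ℂ q.1 = 1 ∧
      q.1 ≤ span ℂ (Set.range p) ∧ ∀ i, q.2 i = span ℂ (Set.range p)}) ?_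
    rintro C ⟨⟨-, f, hf, rfl⟩, hnc⟩
    obtain ⟨K⟩ := hf.comp
    exact nc_curve f hp K hnc

theorem classes_finite {h : ℕ} {p : Fin h → Vec n} (hh : h ≤ 2) (hp : DistinctPoints p) :
    {c : ℕ × (Fin h → ℕ) | ∃ f : Emb p, f.IsMinusOne ∧ (f.d, f.e) = c}.Finite := by
  refine Set.Finite.subset ((Set.finite_Iic (1 : ℕ)).prod
    (Set.Finite.pi' (t := fun _ : Fin h => Set.Iic (1 : ℕ)) (fun _ => Set.finite_Iic _))) ?_
  rintro c ⟨f, hf, rfl⟩
  obtain ⟨K⟩ := hf.comp
  have key : f.d ≤ 1 ∧ ∀ i, f.e i ≤ 1 := by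
    by_cases hc : ∃ L, ∀ q ∈ f.curve, q.1 = L
    · exact contr_class f hp K hc
    · interval_cases h
      · exact (zero_empty f K).elim
      · exact absurd (one_contr f K) hc
      · refine ⟨(nc_d f hp K hc).le, fun i => ?_⟩
        rw [nc_e f hp K hc i]; omega
  exact ⟨key.1, fun i => key.2 i⟩

end Pool.Agent.H58.MinusOne
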