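import Pool.Agent.H58.MinusOne.Planar4
import Pool.Agent.H58.MinusOne.Two

set_option linter.unusedSectionVars false
set_option linter.unusedSimpArgs false

namespace Pool.Agent.H58.MinusOne
open MvPolynomial Submodule

variable {n h : ℕ}

/-- the minor on the rows `g` and the first `m` columns -/
noncomputable def minorP (n h : ℕ) {m : ℕ} (hm : m ≤ n + 1) (g : Fin m → Fin h) :
    MvPolynomial (Fin h × Fin (n + 1)) ℂ :=
  (Matrix.of fun a b : Fin m => (X (g a, Fin.castLE hm b) :
    MvPolynomial (Fin h × Fin (n + 1)) ℂ)).det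

theorem eval_minorP {m : ℕ} (hm : m ≤ n + 1) (g : Fin m → Fin h) (p : Fin h → Vec n) :
    eval (fun ij => p ij.1 ij.2) (minorP n h hm g) =
      (Matrix.of fun a b : Fin m => p (g a) (Fin.castLE hm b)).det := by
  rw [minorP, RingHom.map_det]
  congr 1
  ext a b
  simp

theorem minorP_ne {m : ℕ} (hm : m ≤ n + 1) {g : Fin m → Fin h} (hg : Function.Injective g) :
    minorP n h hm g ≠ 0 := by
  intro h0
  have h1 := eval_minorP hm g (fun i j => ((i : ℕ) : ℂ) ^ (j : ℕ))
  rw [h0, map_zero] at h1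
  have h2 : (Matrix.of fun a b : Fin m => (((g a : ℕ) : ℂ)) ^ ((Fin.castLE hm b : ℕ))) =
      Matrix.vandermonde (fun a => ((g a : ℕ) : ℂ)) := by
    ext a b
    simp [Matrix.vandermonde_apply]
  rw [h2] at h1
  refine (Matrix.det_vandermonde_ne_zero_iff.2 ?_) h1.symm
  intro a b hab
  exact hg (Fin.ext (Nat.cast_injective hab))

theorem li_of_minor {m : ℕ} (hm : m ≤ n + 1) (g : Fin m → Fin h) (p : Fin h → Vec n)
    (h0 : eval (fun ij => p ij.1 ij.2) (minorP n h hm g) ≠ 0) :
    LinearIndependent ℂ (fun i => p (g i)) := by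
  rw [eval_minorP] at h0
  have h1 := Matrix.linearIndependent_rows_of_det_ne_zero h0
  refine LinearIndependent.of_comp (LinearMap.funLeft ℂ ℂ (Fin.castLE hm)) ?_
  exact h1

/-- General points are in general position. -/
theorem exists_genPos_poly (hn : 3 ≤ n) : ∃ Q : MvPolynomial (Fin h × Fin (n + 1)) ℂ, Q ≠ 0 ∧
    ∀ p : Fin h → Vec n, eval (fun ij => p ij.1 ij.2) Q ≠ 0 → GenPos p := by
  classical
  refine ⟨∏ m : Fin 5, ∏ g : Fin m → Fin h, if Function.Injective g then
    minorP n h (m := m) (by omega) g else 1, ?_, ?_⟩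
  · rw [Finset.prod_ne_zero_iff]
    intro m _
    rw [Finset.prod_ne_zero_iff]
    intro g _
    split_ifs with hg
    · exact minorP_ne _ hg
    · exact one_ne_zero
  · intro p hp m hm g hg
    rw [map_prod, Finset.prod_ne_zero_iff] at hp
    have h1 := hp ⟨m, by omega⟩ (Finset.mem_univ _)
    rw [map_prod, Finset.prod_ne_zero_iff] at h1
    have h2 := h1 g (Finset.mem_univ _)
    rw [if_pos hg] at h2
    exact li_of_minor _ g p h2

end Pool.Agent.H58.MinusOne
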