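import Pool.Agent.H58.MinusOne.Infinite

set_option linter.unusedSectionVars false
set_option linter.unusedSimpArgs false

namespace Pool.Agent.H58.MinusOne
open MvPolynomial Submodule

variable {n h : ℕ} {p : Fin h → Vec n}

section Coord
variable {ι : Type*} [Fintype ι] (b : Module.Basis ι ℂ (Vec n))

theorem coord_self (j : ι) : b.coord j (b j) = 1 := by simp

theorem coord_ne {i j : ι} (hij : i ≠ j) : b.coord i (b j) = 0 := by
  simp [Finsupp.single_apply, hij.symm]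

theorem mem_span_basis_pair (j : ι) (w v : Vec n) :
    v ∈ span ℂ {b j, w} ↔ ∃ μ : ℂ, ∀ i, i ≠ j → b.coord i v = μ * b.coord i w := by
  classical
  constructor
  · intro hv
    obtain ⟨α, β, rfl⟩ := mem_span_pair.1 hv
    refine ⟨β, fun i hi => ?_⟩
    rw [map_add, map_smul, map_smul, coord_ne b hi]
    simp
  · rintro ⟨μ, hμ⟩
    refine mem_span_pair.2 ⟨b.coord j v - μ * b.coord j w, μ, ?_⟩
    apply b.ext_elem
    intro i
    change b.coord i _ = b.coord i _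
    rw [map_add, map_smul, map_smul]
    by_cases hi : i = j
    · subst hi
      rw [coord_self]
      simp only [smul_eq_mul, mul_one]
      ring
    · rw [coord_ne b hi, hμ i hi]
      simp

theorem mem_span_basis (j : ι) (v : Vec n) :
    v ∈ span ℂ {b j} ↔ ∀ i, i ≠ j → b.coord i v = 0 := by
  classical
  constructor
  · intro hv i hi
    obtain ⟨α, rfl⟩ := mem_span_singleton.1 hv
    rw [map_smul, coord_ne b hi]
    simp
  · intro hμ
    refine mem_span_singleton.2 ⟨b.coord j v, ?_⟩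
    apply b.ext_elem
    intro i
    change b.coord i _ = b.coord i _
    rw [map_smul]
    by_cases hi : i = j
    · subst hi
      rw [coord_self]
      simp
    · rw [coord_ne b hi, hμ i hi]
      simp

theorem mem_span_coord (w v : Vec n) :
    v ∈ span ℂ {w} ↔ ∃ μ : ℂ, ∀ i, b.coord i v = μ * b.coord i w := by
  constructor
  · intro hv
    obtain ⟨α, rfl⟩ := mem_span_singleton.1 hv
    exact ⟨α, fun i => by rw [map_smul]; rfl⟩
  · rintro ⟨μ, hμ⟩
    refine mem_span_singleton.2 ⟨μ, ?_⟩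
    apply b.ext_elem
    intro i
    change b.coord i _ = b.coord i _
    rw [map_smul, hμ i]
    rfl

end Coord

theorem sum_three {h : ℕ} {i0 i1 i2 : Fin h} (h01 : i0 ≠ i1) (h02 : i0 ≠ i2) (h12 : i1 ≠ i2)
    (A : Fin h → ℂ) (hA : ∀ i, i ≠ i0 → i ≠ i1 → i ≠ i2 → A i = 0) :
    ∑ i, A i = A i0 + A i1 + A i2 := by
  classical
  have h1 : ∑ i ∈ ({i0, i1, i2} : Finset (Fin h)), A i = ∑ i, A i := by
    apply Finset.sum_subset (Finset.subset_univ _)
    intro i _ hi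
    simp only [Finset.mem_insert, Finset.mem_singleton, not_or] at hi
    exact hA i hi.1 hi.2.1 hi.2.2
  rw [← h1, Finset.sum_insert (by simp [h01, h02]), Finset.sum_insert (by simp [h12]),
    Finset.sum_singleton]
  ring

/-- the form `X^(r+2) + Y^(r+2)` -/
noncomputable def gP (r : ℕ) : Poly2 := X 0 ^ (r + 2) + X 1 ^ (r + 2)

theorem eval_gP (r : ℕ) (x) : eval x (gP r) = x 0 ^ (r + 2) + x 1 ^ (r + 2) := by simp [gP]

theorem D_gP (r : ℕ) (x u) :
    D (gP r) x u = (r + 2) * (x 0 ^ (r + 1) * u 0 + x 1 ^ (r + 1) * u 1) := by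
  rw [gP, D_add, D_X0_pow, D_X1_pow]
  push_cast
  ring

theorem gP_hom (r : ℕ) : (gP r).IsHomogeneous (r + 2) :=
  (isHomogeneous_X_pow _ _).add (isHomogeneous_X_pow _ _)

section
variable {κ : Type} [Fintype κ] (b : Module.Basis (Fin 3 ⊕ κ) ℂ (Vec n)) (i0 i1 i2 : Fin h) (r : ℕ)

/-- the plane curve -/
noncomputable def plF : Fin (n + 1) → Poly2 :=
  sv (-(X 0 ^ (r + 2) * X 1)) (b (Sum.inl 0)) + sv (gP r * X 0) (b (Sum.inl 1)) +
    sv (gP r * X 1) (b (Sum.inl 2))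

noncomputable def plG0 : Fin (n + 1) → Poly2 :=
  sv (X 0) (b (Sum.inl 1)) + sv (X 1) (b (Sum.inl 2))

noncomputable def plG1 : Fin (n + 1) → Poly2 :=
  sv (-(X 0 ^ (r + 2))) (b (Sum.inl 0)) + sv (gP r) (b (Sum.inl 2))

noncomputable def plG2 : Fin (n + 1) → Poly2 :=
  sv (-(X 1 * X 0 ^ (r + 1))) (b (Sum.inl 0)) + sv (gP r) (b (Sum.inl 1))

noncomputable def plG (i : Fin h) : Fin (n + 1) → Poly2 :=
  if i = i0 then plG0 b else if i = i1 then plG1 b r else if i = i2 then plG2 b r else plF b r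

/-- coordinates of a vector with respect to `b` -/
noncomputable def co (v : Vec n) (i : Fin 3 ⊕ κ) : ℂ := b.coord i v

theorem co_val_plF (x) :
    (co b (val (plF b r) x) (Sum.inl 0) = -(x 0 ^ (r + 2) * x 1)) ∧
    (co b (val (plF b r) x) (Sum.inl 1) = (x 0 ^ (r + 2) + x 1 ^ (r + 2)) * x 0) ∧
    (co b (val (plF b r) x) (Sum.inl 2) = (x 0 ^ (r + 2) + x 1 ^ (r + 2)) * x 1) ∧
    ∀ k, co b (val (plF b r) x) (Sum.inr k) = 0 := by
  simp [co, plF, val_add, val_sv, Finsupp.single_apply, eval_gP]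

theorem co_der_plF (x u) :
    (co b (der (plF b r) x u) (Sum.inl 0) =
      -((r + 2) * x 0 ^ (r + 1) * u 0 * x 1 + x 0 ^ (r + 2) * u 1)) ∧
    (co b (der (plF b r) x u) (Sum.inl 1) =
      (r + 2) * (x 0 ^ (r + 1) * u 0 + x 1 ^ (r + 1) * u 1) * x 0 +
        (x 0 ^ (r + 2) + x 1 ^ (r + 2)) * u 0) ∧
    (co b (der (plF b r) x u) (Sum.inl 2) =
      (r + 2) * (x 0 ^ (r + 1) * u 0 + x 1 ^ (r + 1) * u 1) * x 1 +
        (x 0 ^ (r + 2) + x 1 ^ (r + 2)) * u 1) ∧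
    ∀ k, co b (der (plF b r) x u) (Sum.inr k) = 0 := by
  have e : (r : ℂ) + 1 + 1 = r + 2 := by ring
  simp [co, plF, der_add, der_sv, Finsupp.single_apply, eval_gP, D_neg, D_mul, D_gP, D_X0, D_X1,
    D_X0_pow, e]

theorem co_val_plG0 (x) :
    (co b (val (plG0 b) x) (Sum.inl 0) = 0) ∧
    (co b (val (plG0 b) x) (Sum.inl 1) = x 0) ∧
    (co b (val (plG0 b) x) (Sum.inl 2) = x 1) ∧
    ∀ k, co b (val (plG0 b) x) (Sum.inr k) = 0 := by
  simp [co, plG0, val_add, val_sv, Finsupp.single_apply]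

theorem co_der_plG0 (x u) :
    (co b (der (plG0 b) x u) (Sum.inl 0) = 0) ∧
    (co b (der (plG0 b) x u) (Sum.inl 1) = u 0) ∧
    (co b (der (plG0 b) x u) (Sum.inl 2) = u 1) ∧
    ∀ k, co b (der (plG0 b) x u) (Sum.inr k) = 0 := by
  simp [co, plG0, der_add, der_sv, Finsupp.single_apply, D_X0, D_X1]

theorem co_val_plG1 (x) :
    (co b (val (plG1 b r) x) (Sum.inl 0) = -(x 0 ^ (r + 2))) ∧
    (co b (val (plG1 b r) x) (Sum.inl 1) = 0) ∧
    (co b (val (plG1 b r) x) (Sum.inl 2) = x 0 ^ (r + 2) + x 1 ^ (r + 2)) ∧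
    ∀ k, co b (val (plG1 b r) x) (Sum.inr k) = 0 := by
  simp [co, plG1, val_add, val_sv, Finsupp.single_apply, eval_gP]

theorem co_der_plG1 (x u) :
    (co b (der (plG1 b r) x u) (Sum.inl 0) = -((r + 2) * x 0 ^ (r + 1) * u 0)) ∧
    (co b (der (plG1 b r) x u) (Sum.inl 1) = 0) ∧
    (co b (der (plG1 b r) x u) (Sum.inl 2) =
      (r + 2) * (x 0 ^ (r + 1) * u 0 + x 1 ^ (r + 1) * u 1)) ∧
    ∀ k, co b (der (plG1 b r) x u) (Sum.inr k) = 0 := by
  have e : (r : ℂ) + 1 + 1 = r + 2 := by ring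
  simp [co, plG1, der_add, der_sv, Finsupp.single_apply, D_neg, D_gP, D_X0_pow, e]

theorem co_val_plG2 (x) :
    (co b (val (plG2 b r) x) (Sum.inl 0) = -(x 1 * x 0 ^ (r + 1))) ∧
    (co b (val (plG2 b r) x) (Sum.inl 1) = x 0 ^ (r + 2) + x 1 ^ (r + 2)) ∧
    (co b (val (plG2 b r) x) (Sum.inl 2) = 0) ∧
    ∀ k, co b (val (plG2 b r) x) (Sum.inr k) = 0 := by
  simp [co, plG2, val_add, val_sv, Finsupp.single_apply, eval_gP]

theorem co_der_plG2 (x u) :
    (co b (der (plG2 b r) x u) (Sum.inl 0) =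
      -(u 1 * x 0 ^ (r + 1) + x 1 * ((r + 1) * x 0 ^ r * u 0))) ∧
    (co b (der (plG2 b r) x u) (Sum.inl 1) =
      (r + 2) * (x 0 ^ (r + 1) * u 0 + x 1 ^ (r + 1) * u 1)) ∧
    (co b (der (plG2 b r) x u) (Sum.inl 2) = 0) ∧
    ∀ k, co b (der (plG2 b r) x u) (Sum.inr k) = 0 := by
  simp [co, plG2, der_add, der_sv, Finsupp.single_apply, D_neg, D_gP, D_X0_pow, D_mul, D_X1]

theorem forall_idx (P : Fin 3 ⊕ κ → Prop) :
    (∀ i, P i) ↔ P (Sum.inl 0) ∧ P (Sum.inl 1) ∧ P (Sum.inl 2) ∧ ∀ k, P (Sum.inr k) := by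
  constructor
  · intro h
    exact ⟨h _, h _, h _, fun k => h _⟩
  · rintro ⟨h0, h1, h2, h3⟩ (j | k)
    · fin_cases j
      · exact h0
      · exact h1
      · exact h2
    · exact h3 k

theorem S_b0 (v : Vec n) : v ∈ span ℂ {b (Sum.inl 0)} ↔
    co b v (Sum.inl 1) = 0 ∧ co b v (Sum.inl 2) = 0 ∧ ∀ k, co b v (Sum.inr k) = 0 := by
  rw [mem_span_basis, forall_idx]
  simp [co]

theorem S_b1 (v : Vec n) : v ∈ span ℂ {b (Sum.inl 1)} ↔
    co b v (Sum.inl 0) = 0 ∧ co b v (Sum.inl 2) = 0 ∧ ∀ k, co b v (Sum.inr k) = 0 := by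
  rw [mem_span_basis, forall_idx]
  simp [co]

theorem S_b2 (v : Vec n) : v ∈ span ℂ {b (Sum.inl 2)} ↔
    co b v (Sum.inl 0) = 0 ∧ co b v (Sum.inl 1) = 0 ∧ ∀ k, co b v (Sum.inr k) = 0 := by
  rw [mem_span_basis, forall_idx]
  simp [co]

theorem S_G0 (x : Fin 2 → ℂ) (v : Vec n) : v ∈ span ℂ {b (Sum.inl 0), val (plG0 b) x} ↔
    ∃ μ, co b v (Sum.inl 1) = μ * x 0 ∧ co b v (Sum.inl 2) = μ * x 1 ∧
      ∀ k, co b v (Sum.inr k) = 0 := by
  obtain ⟨-, h1, h2, h3⟩ := co_val_plG0 b x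
  rw [mem_span_basis_pair]
  refine exists_congr fun μ => ?_
  rw [forall_idx]
  change (_ → co b v _ = μ * co b _ _) ∧ (_ → co b v _ = μ * co b _ _) ∧
    (_ → co b v _ = μ * co b _ _) ∧ (∀ k, _ → co b v _ = μ * co b _ _) ↔ _
  simp only [h1, h2, h3]
  simp

theorem S_G1 (x : Fin 2 → ℂ) (v : Vec n) : v ∈ span ℂ {b (Sum.inl 1), val (plG1 b r) x} ↔
    ∃ μ, co b v (Sum.inl 0) = -(μ * x 0 ^ (r + 2)) ∧
      co b v (Sum.inl 2) = μ * (x 0 ^ (r + 2) + x 1 ^ (r + 2)) ∧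
      ∀ k, co b v (Sum.inr k) = 0 := by
  obtain ⟨h0, -, h2, h3⟩ := co_val_plG1 b r x
  rw [mem_span_basis_pair]
  refine exists_congr fun μ => ?_
  rw [forall_idx]
  change (_ → co b v _ = μ * co b _ _) ∧ (_ → co b v _ = μ * co b _ _) ∧
    (_ → co b v _ = μ * co b _ _) ∧ (∀ k, _ → co b v _ = μ * co b _ _) ↔ _
  simp only [h0, h2, h3]
  simp

theorem S_G2 (x : Fin 2 → ℂ) (v : Vec n) : v ∈ span ℂ {b (Sum.inl 2), val (plG2 b r) x} ↔
    ∃ μ, co b v (Sum.inl 0) = -(μ * (x 1 * x 0 ^ (r + 1))) ∧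
      co b v (Sum.inl 1) = μ * (x 0 ^ (r + 2) + x 1 ^ (r + 2)) ∧
      ∀ k, co b v (Sum.inr k) = 0 := by
  obtain ⟨h0, h1, -, h3⟩ := co_val_plG2 b r x
  rw [mem_span_basis_pair]
  refine exists_congr fun μ => ?_
  rw [forall_idx]
  change (_ → co b v _ = μ * co b _ _) ∧ (_ → co b v _ = μ * co b _ _) ∧
    (_ → co b v _ = μ * co b _ _) ∧ (∀ k, _ → co b v _ = μ * co b _ _) ↔ _
  simp only [h0, h1, h3]
  simp

theorem S_F (x : Fin 2 → ℂ) (v : Vec n) : v ∈ span ℂ {val (plF b r) x} ↔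
    ∃ μ, co b v (Sum.inl 0) = -(μ * (x 0 ^ (r + 2) * x 1)) ∧
      co b v (Sum.inl 1) = μ * ((x 0 ^ (r + 2) + x 1 ^ (r + 2)) * x 0) ∧
      co b v (Sum.inl 2) = μ * ((x 0 ^ (r + 2) + x 1 ^ (r + 2)) * x 1) ∧
      ∀ k, co b v (Sum.inr k) = 0 := by
  obtain ⟨h0, h1, h2, h3⟩ := co_val_plF b r x
  rw [mem_span_coord b]
  refine exists_congr fun μ => ?_
  rw [forall_idx]
  change (co b v _ = μ * co b _ _) ∧ (co b v _ = μ * co b _ _) ∧
    (co b v _ = μ * co b _ _) ∧ (∀ k, co b v _ = μ * co b _ _) ↔ _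
  simp only [h0, h1, h2, h3]
  simp

theorem co_sub (v w : Vec n) (i) : co b (v - w) i = co b v i - co b w i := by simp [co]
theorem co_smul (c : ℂ) (v : Vec n) (i) : co b (c • v) i = c * co b v i := by simp [co]
theorem co_add (v w : Vec n) (i) : co b (v + w) i = co b v i + co b w i := by simp [co]

theorem co_ext {v w : Vec n} (h : ∀ i, co b v i = co b w i) : v = w := b.ext_elem h

theorem plG_0 : plG b i0 i1 i2 r i0 = plG0 b := by simp [plG]
theorem plG_1 (h01 : i0 ≠ i1) : plG b i0 i1 i2 r i1 = plG1 b r := by simp [plG, h01.symm]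
theorem plG_2 (h02 : i0 ≠ i2) (h12 : i1 ≠ i2) : plG b i0 i1 i2 r i2 = plG2 b r := by
  simp [plG, h02.symm, h12.symm]
theorem plG_3 {i : Fin h} (h0 : i ≠ i0) (h1 : i ≠ i1) (h2 : i ≠ i2) :
    plG b i0 i1 i2 r i = plF b r := by simp [plG, h0, h1, h2]

/-- degrees of the components -/
def plE (i : Fin h) : ℕ :=
  if i = i0 then 1 else if i = i1 then r + 2 else if i = i2 then r + 2 else r + 3

theorem plF_hom (j) : (plF b r j).IsHomogeneous (r + 3) := by
  refine add_hom (add_hom (sv_hom ?_ _) (sv_hom ?_ _)) (sv_hom ?_ _) j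
  · exact ((isHomogeneous_X_pow _ _).mul (isHomogeneous_X _ _)).neg
  · exact (gP_hom r).mul (isHomogeneous_X _ _)
  · exact (gP_hom r).mul (isHomogeneous_X _ _)

theorem pow_add_pow_ne {x : Fin 2 → ℂ} (hx : x ≠ 0)
    (h1 : x 0 ^ (r + 2) + x 1 ^ (r + 2) = 0) : x 0 ≠ 0 ∧ x 1 ≠ 0 := by
  constructor
  · intro h0
    rw [h0, zero_pow (by omega), zero_add] at h1
    have := pow_eq_zero_iff (n := r + 2) (by omega) |>.1 h1
    rcases ne_zero_cases hx with h | h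
    · exact h h0
    · exact h this
  · intro h0
    rw [h0, zero_pow (by omega), add_zero] at h1
    have := pow_eq_zero_iff (n := r + 2) (by omega) |>.1 h1
    rcases ne_zero_cases hx with h | h
    · exact h this
    · exact h h0

theorem val_plF_ne {x : Fin 2 → ℂ} (hx : x ≠ 0) :
    ¬ (co b (val (plF b r) x) (Sum.inl 0) = 0 ∧ co b (val (plF b r) x) (Sum.inl 1) = 0 ∧
      co b (val (plF b r) x) (Sum.inl 2) = 0) := by
  obtain ⟨h0, h1, h2, -⟩ := co_val_plF b r x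
  rw [h0, h1, h2]
  rintro ⟨e0, e1, e2⟩
  by_cases hg : x 0 ^ (r + 2) + x 1 ^ (r + 2) = 0
  · obtain ⟨a, c⟩ := pow_add_pow_ne r hx hg
    exact mul_ne_zero (pow_ne_zero _ a) c (neg_eq_zero.1 e0)
  · rcases ne_zero_cases hx with h | h
    · exact mul_ne_zero hg h e1
    · exact mul_ne_zero hg h e2

/-- hypotheses on the position of the points -/
structure PlHyp (p : Fin h → Vec n) : Prop where
  h01 : i0 ≠ i1
  h02 : i0 ≠ i2
  h12 : i1 ≠ i2
  hb0 : b (Sum.inl 0) = p i0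
  hb1 : b (Sum.inl 1) = p i1
  hb2 : b (Sum.inl 2) = p i2
  hout : ∀ i, i ≠ i0 → i ≠ i1 → i ≠ i2 → ¬ ∀ k, co b (p i) (Sum.inr k) = 0

/-- The embedding of the plane curve. -/
noncomputable def planar (H : PlHyp b i0 i1 i2 p) : Emb p where
  d := r + 3
  e := plE i0 i1 i2 r
  F := plF b r
  G := plG b i0 i1 i2 r
  homF := plF_hom b r
  homG := by
    intro i j
    by_cases h0 : i = i0
    · subst h0
      rw [plG_0]
      simp only [plE, if_true]
      exact add_hom (sv_hom (isHomogeneous_X _ _) _) (sv_hom (isHomogeneous_X _ _) _) j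
    by_cases h1 : i = i1
    · subst h1
      rw [plG_1 _ _ _ _ _ H.h01]
      simp only [plE, if_neg h0, if_true]
      exact add_hom (sv_hom (isHomogeneous_X_pow _ _).neg _) (sv_hom (gP_hom r) _) j
    by_cases h2 : i = i2
    · subst h2
      rw [plG_2 _ _ _ _ _ H.h02 H.h12]
      simp only [plE, if_neg h0, if_neg h1, if_true]
      refine add_hom (sv_hom ?_ _) (sv_hom (gP_hom r) _) j
      have := ((isHomogeneous_X ℂ (1 : Fin 2)).mul (isHomogeneous_X_pow (R := ℂ) (0 : Fin 2) (r + 1))).neg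
      have e : 1 + (r + 1) = r + 2 := by omega
      rw [e] at this
      exact this
    · rw [plG_3 _ _ _ _ _ h0 h1 h2]
      simp only [plE, if_neg h0, if_neg h1, if_neg h2]
      exact plF_hom b r j
  F_ne := by
    intro x hx h0
    apply val_plF_ne b r hx
    rw [h0]
    simp [co]
  G_ne := by
    intro i x hx hmem
    by_cases h0 : i = i0
    · subst h0
      rw [plG_0, ← H.hb0, S_b0] at hmem
      obtain ⟨-, c1, c2, -⟩ := co_val_plG0 b x
      rw [c1, c2] at hmem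
      rcases ne_zero_cases hx with h | h
      · exact h hmem.1
      · exact h hmem.2.1
    by_cases h1 : i = i1
    · subst h1
      rw [plG_1 _ _ _ _ _ H.h01, ← H.hb1, S_b1] at hmem
      obtain ⟨c0, -, c2, -⟩ := co_val_plG1 b r x
      rw [c0, c2] at hmem
      obtain ⟨a, c⟩ := pow_add_pow_ne r hx hmem.2.1
      exact pow_ne_zero _ a (neg_eq_zero.1 hmem.1)
    by_cases h2 : i = i2
    · subst h2
      rw [plG_2 _ _ _ _ _ H.h02 H.h12, ← H.hb2, S_b2] at hmem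
      obtain ⟨c0, c1, -, -⟩ := co_val_plG2 b r x
      rw [c0, c1] at hmem
      obtain ⟨a, c⟩ := pow_add_pow_ne r hx hmem.2.1
      exact mul_ne_zero c (pow_ne_zero _ a) (neg_eq_zero.1 hmem.1)
    · rw [plG_3 _ _ _ _ _ h0 h1 h2] at hmem
      obtain ⟨μ, hμ⟩ := mem_span_singleton.1 hmem
      apply H.hout i h0 h1 h2
      intro k
      have h3 := (co_val_plF b r x).2.2.2 k
      rw [← hμ, co_smul] at h3
      refine (mul_eq_zero.1 h3).resolve_left ?_
      intro hμ0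
      rw [hμ0, zero_smul] at hμ
      apply val_plF_ne b r hx
      rw [← hμ]
      simp [co]
  mem := by
    intro i x hx
    obtain ⟨f0, f1, f2, f3⟩ := co_val_plF b r x
    by_cases h0 : i = i0
    · subst h0
      rw [plG_0, ← H.hb0, S_G0]
      exact ⟨x 0 ^ (r + 2) + x 1 ^ (r + 2), f1, f2, f3⟩
    by_cases h1 : i = i1
    · subst h1
      rw [plG_1 _ _ _ _ _ H.h01, ← H.hb1, S_G1]
      exact ⟨x 1, by rw [f0]; ring, by rw [f2]; ring, f3⟩
    by_cases h2 : i = i2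
    · subst h2
      rw [plG_2 _ _ _ _ _ H.h02 H.h12, ← H.hb2, S_G2]
      exact ⟨x 0, by rw [f0]; ring, by rw [f1]; ring, f3⟩
    · rw [plG_3 _ _ _ _ _ h0 h1 h2]
      exact subset_span (by simp)
  inj := by
    intro x y _ _ _ hG
    have := hG i0
    rw [plG_0, ← H.hb0, S_G0] at this
    obtain ⟨μ, m1, m2, -⟩ := this
    obtain ⟨-, c1, c2, -⟩ := co_val_plG0 b y
    rw [c1] at m1
    rw [c2] at m2
    exact mem_line_of_coords m1 m2
  imm := by
    intro x u _ _ hG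
    have := hG i0
    rw [plG_0, ← H.hb0, S_G0] at this
    obtain ⟨μ, m1, m2, -⟩ := this
    obtain ⟨-, c1, c2, -⟩ := co_der_plG0 b x u
    rw [c1] at m1
    rw [c2] at m2
    exact mem_line_of_coords m1 m2

end

end Pool.Agent.H58.MinusOne
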