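import Pool.Agent.H58.MinusOne.Planar2

set_option linter.unusedSectionVars false
set_option linter.unusedSimpArgs false

namespace Pool.Agent.H58.MinusOne
open MvPolynomial Submodule

variable {n h : ℕ} {p : Fin h → Vec n}
variable {κ : Type} [Fintype κ] (b : Module.Basis (Fin 3 ⊕ κ) ℂ (Vec n)) (i0 i1 i2 : Fin h) (r : ℕ)

theorem theta_of_nul (H : PlHyp b i0 i1 i2 p) {x : Fin 2 → ℂ} {v : Vec n}
    {w : Fin h → Vec n}
    (hnul : (planar b i0 i1 i2 r H).Nul x v w) (k : Option κ) :
    plTheta b i0 i1 i2 r x v w k = 0 := by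
  obtain ⟨u, hu, hw⟩ := hnul
  have w0 := hw i0
  have w1 := hw i1
  have w2 := hw i2
  simp only [planar] at w0 w1 w2
  rw [plG_0, ← H.hb0, S_G0, co_sub, co_sub] at w0
  rw [plG_1 _ _ _ _ _ H.h01, ← H.hb1, S_G1, co_sub, co_sub] at w1
  rw [plG_2 _ _ _ _ _ H.h02 H.h12, ← H.hb2, S_G2, co_sub, co_sub] at w2
  obtain ⟨-, a1, a2, a3⟩ := co_der_plG0 b x u
  obtain ⟨b0, -, b2, b3⟩ := co_der_plG1 b r x u
  obtain ⟨c0, c1, -, c3⟩ := co_der_plG2 b r x u
  rw [a1, a2] at w0
  rw [b0, b2] at w1
  rw [c0, c1] at w2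
  obtain ⟨μ0, m1, m2, m3⟩ := w0
  obtain ⟨μ1, m4, m5, m6⟩ := w1
  obtain ⟨μ2, m7, m8, m9⟩ := w2
  have k0 : ∀ k, co b (w i0) (Sum.inr k) = 0 := fun k => by
    have := m3 k
    rwa [co_sub, a3, sub_zero] at this
  have k1 : ∀ k, co b (w i1) (Sum.inr k) = 0 := fun k => by
    have := m6 k
    rwa [co_sub, b3, sub_zero] at this
  have k2 : ∀ k, co b (w i2) (Sum.inr k) = 0 := fun k => by
    have := m9 k
    rwa [co_sub, c3, sub_zero] at this
  cases k with
  | some k => simp only [plTheta, k0, k1, k2]; simp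
  | none =>
    have e1 : P0 b r x (w i0) (w i1) = 0 := by
      unfold P0
      linear_combination (x 0 ^ (r + 2) + x 1 ^ (r + 2)) * m4 + x 0 ^ (r + 2) * m5
        + (r + 2) * x 0 ^ (r + 1) * x 1 ^ (r + 1) * (x 1 * m1 - x 0 * m2)
    have e2 : P1 b r x (w i0) (w i2) = 0 := by
      unfold P1
      linear_combination (x 0 ^ (r + 2) + x 1 ^ (r + 2)) * m7 + x 1 * x 0 ^ (r + 1) * m8
        + ((r + 1) * x 0 ^ r * x 1 ^ (r + 2) - x 0 ^ (2 * r + 2)) * (x 1 * m1 - x 0 * m2)
    simp only [plTheta, e1, e2]; simp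

/-- vector with given coordinates -/
noncomputable def mk (c : Fin 3 ⊕ κ → ℂ) : Vec n := b.equivFun.symm c

theorem co_mk (c : Fin 3 ⊕ κ → ℂ) (i) : co b (mk b c) i = c i := by
  exact b.coord_equivFun_symm i c

theorem theta_surj (H : PlHyp b i0 i1 i2 p) {x : Fin 2 → ℂ} (hx : x ≠ 0) (y : Option κ → ℂ) :
    ∃ (v : Vec n) (w : Fin h → Vec n), TanX b i0 i1 i2 r p x v w ∧
      ∀ k, plTheta b i0 i1 i2 r x v w k = y k := by
  obtain ⟨v0, v1, v2, w01, w02, w10, w12, w20, w21, hT, hP0, hP1⟩ :
      ∃ v0 v1 v2 w01 w02 w10 w12 w20 w21 : ℂ,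
      ((∃ μ, v1 - (x 0 ^ (r + 2) + x 1 ^ (r + 2)) * w01 = μ * x 0 ∧
        v2 - (x 0 ^ (r + 2) + x 1 ^ (r + 2)) * w02 = μ * x 1) ∧
      (∃ μ, v0 - x 1 * w10 = -(μ * x 0 ^ (r + 2)) ∧
        v2 - x 1 * w12 = μ * (x 0 ^ (r + 2) + x 1 ^ (r + 2))) ∧
      (∃ μ, v0 - x 0 * w20 = -(μ * (x 1 * x 0 ^ (r + 1))) ∧
        v1 - x 0 * w21 = μ * (x 0 ^ (r + 2) + x 1 ^ (r + 2)))) ∧
      ((x 0 ^ (r + 2) + x 1 ^ (r + 2)) * w10 + x 0 ^ (r + 2) * w12 +
        (r + 2) * x 0 ^ (r + 1) * x 1 ^ (r + 1) * (x 1 * w01 - x 0 * w02) = x 0 * y none) ∧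
      ((x 0 ^ (r + 2) + x 1 ^ (r + 2)) * w20 + x 1 * x 0 ^ (r + 1) * w21 +
        ((r + 1) * x 0 ^ r * x 1 ^ (r + 2) - x 0 ^ (2 * r + 2)) * (x 1 * w01 - x 0 * w02) =
          x 1 * y none) := by
    by_cases hg : x 0 ^ (r + 2) + x 1 ^ (r + 2) = 0
    · obtain ⟨sn, tn⟩ := pow_add_pow_ne r hx hg
      have sn' := pow_ne_zero (r + 1) sn
      refine ⟨0, y none / x 0 ^ (r + 1) * x 0, y none / x 0 ^ (r + 1) * x 1, 0, 0, 0,
        y none / x 0 ^ (r + 1), 0, y none / x 0 ^ (r + 1), ⟨⟨y none / x 0 ^ (r + 1), ?_, ?_⟩,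
        ⟨0, ?_, ?_⟩, ⟨0, ?_, ?_⟩⟩, ?_, ?_⟩
      · ring
      · ring
      · ring
      · ring
      · ring
      · ring
      · have e : x 0 ^ (r + 2) = x 0 * x 0 ^ (r + 1) := by ring
        rw [hg, e]
        field_simp
        ring
      · rw [hg]
        field_simp
        ring
    · refine ⟨y none * x 0 * x 1 / (x 0 ^ (r + 2) + x 1 ^ (r + 2)), 0, 0, 0, 0,
        y none * x 0 / (x 0 ^ (r + 2) + x 1 ^ (r + 2)), 0,
        y none * x 1 / (x 0 ^ (r + 2) + x 1 ^ (r + 2)), 0, ⟨⟨0, ?_, ?_⟩,
        ⟨0, ?_, ?_⟩, ⟨0, ?_, ?_⟩⟩, ?_, ?_⟩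
      · ring
      · ring
      · ring
      · ring
      · ring
      · ring
      · field_simp
        ring
      · field_simp
        ring
  obtain ⟨⟨μ0, t1, t2⟩, ⟨μ1, t3, t4⟩, ⟨μ2, t5, t6⟩⟩ := hT
  let g : ℂ := x 0 ^ (r + 2) + x 1 ^ (r + 2)
  let v : Vec n := mk b (Sum.elim ![v0, v1, v2] (fun k => g * x 0 * x 1 * y (some k)))
  let W0 : Vec n := mk b (Sum.elim ![0, w01, w02] (fun k => x 0 * x 1 * y (some k)))
  let W1 : Vec n := mk b (Sum.elim ![w10, 0, w12] (fun k => g * x 0 * y (some k)))
  let W2 : Vec n := mk b (Sum.elim ![w20, w21, 0] (fun k => g * x 1 * y (some k)))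
  let w : Fin h → Vec n := fun i => if i = i0 then W0 else if i = i1 then W1 else
    if i = i2 then W2 else v
  have hw0 : w i0 = W0 := by simp [w]
  have hw1 : w i1 = W1 := by simp [w, H.h01.symm]
  have hw2 : w i2 = W2 := by simp [w, H.h02.symm, H.h12.symm]
  have hT : TanX b i0 i1 i2 r p x v w := by
    refine ⟨⟨μ0, ?_, ?_, ?_⟩, ⟨μ1, ?_, ?_, ?_⟩, ⟨μ2, ?_, ?_, ?_⟩, ?_⟩
    · rw [hw0, co_mk, co_mk]; exact t1
    · rw [hw0, co_mk, co_mk]; exact t2
    · intro k; rw [hw0, co_mk, co_mk]; simp only [Sum.elim_inr, g]; ring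
    · rw [hw1, co_mk, co_mk]; exact t3
    · rw [hw1, co_mk, co_mk]; exact t4
    · intro k; rw [hw1, co_mk, co_mk]; simp only [Sum.elim_inr, g]; ring
    · rw [hw2, co_mk, co_mk]; exact t5
    · rw [hw2, co_mk, co_mk]; exact t6
    · intro k; rw [hw2, co_mk, co_mk]; simp only [Sum.elim_inr, g]; ring
    · intro i j0 j1 j2
      have : w i = v := by simp [w, j0, j1, j2]
      rw [this, sub_self]
      exact zero_mem _
  refine ⟨v, w, hT, ?_⟩
  intro k
  cases k with
  | none =>
    obtain ⟨e1, e2⟩ := plTheta_none b i0 i1 i2 r hx hT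
    unfold P0 at e1
    unfold P1 at e2
    rw [hw0, hw1, co_mk, co_mk, co_mk, co_mk] at e1
    rw [hw0, hw2, co_mk, co_mk, co_mk, co_mk] at e2
    have e1' : x 0 * plTheta b i0 i1 i2 r x v w none = x 0 * y none := e1.trans hP0
    have e2' : x 1 * plTheta b i0 i1 i2 r x v w none = x 1 * y none := e2.trans hP1
    rcases ne_zero_cases hx with h0 | h0
    · exact mul_left_cancel₀ h0 e1'
    · exact mul_left_cancel₀ h0 e2'
  | some k =>
    obtain ⟨e1, e2⟩ := plTheta_some b i0 i1 i2 r hx hT k
    rw [hw0, hw1, co_mk, co_mk] at e1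
    rw [hw0, hw2, co_mk, co_mk] at e2
    simp only [Sum.elim_inr, g] at e1 e2
    rcases ne_zero_cases hx with h0 | h0
    · apply mul_left_cancel₀ (pow_ne_zero (r + 3) h0)
      rw [e1]; ring
    · apply mul_left_cancel₀ (pow_ne_zero (r + 3) h0)
      rw [e2]; ring

/-- family of polynomial covectors with three nonzero members -/
noncomputable def psi (A B C : Fin (n + 1) → Poly2) (i : Fin h) : Fin (n + 1) → Poly2 :=
  if i = i0 then A else if i = i1 then B else if i = i2 then C else 0

theorem psi_sum (h01 : i0 ≠ i1) (h02 : i0 ≠ i2) (h12 : i1 ≠ i2) (A B C : Fin (n + 1) → Poly2)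
    (x : Fin 2 → ℂ) (w : Fin h → Vec n) :
    ∑ i, val (psi i0 i1 i2 A B C i) x ⬝ᵥ w i =
      val A x ⬝ᵥ w i0 + val B x ⬝ᵥ w i1 + val C x ⬝ᵥ w i2 := by
  rw [sum_three h01 h02 h12]
  · simp [psi, h01.symm, h02.symm, h12.symm]
  · intro i j0 j1 j2
    simp [psi, j0, j1, j2, val_zero]

theorem psi_hom {A B C : Fin (n + 1) → Poly2} {EA EB EC EO : ℕ}
    (hA : ∀ j, (A j).IsHomogeneous EA) (hB : ∀ j, (B j).IsHomogeneous EB)
    (hC : ∀ j, (C j).IsHomogeneous EC) (i : Fin h) (j) :
    (psi i0 i1 i2 A B C i j).IsHomogeneous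
      (if i = i0 then EA else if i = i1 then EB else if i = i2 then EC else EO) := by
  unfold psi
  split_ifs
  · exact hA j
  · exact hB j
  · exact hC j
  · exact isHomogeneous_zero _ _ _

theorem co_eq (v : Vec n) (i) : b.coord i v = co b v i := rfl

theorem planar_minusOne (hn : 3 ≤ n) (hκ : Fintype.card κ + 3 = n + 1)
    (H : PlHyp b i0 i1 i2 p) : (planar b i0 i1 i2 r H).IsMinusOne := by
  classical
  have hcard : Fintype.card (Fin (n - 1)) = Fintype.card (Option κ) := by
    rw [Fintype.card_fin, Fintype.card_option]; omega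
  let eq : Fin (n - 1) ≃ Option κ := Fintype.equivOfCardEq hcard
  let a : Option κ → ℤ := fun o => match o with
    | none => 2 * r + 3
    | some _ => -1
  have hpos : 0 < Fintype.card κ := by omega
  obtain ⟨k0⟩ : Nonempty κ := Fintype.card_pos_iff.1 hpos
  refine ⟨fun k => a (eq k), ?_, ?_, ⟨eq.symm (some k0), by simp [a]⟩⟩
  · refine Emb.NormalIso.of_equiv _ eq a (plTheta b i0 i1 i2 r) ?_ ?_ ?_
    · intro x hx v w ht
      constructor
      · intro hz
        exact nul_of_theta b i0 i1 i2 r H hx ((planar_tan b i0 i1 i2 r H hx v w).1 ht) hz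
      · intro hnul k
        exact theta_of_nul b i0 i1 i2 r H hnul k
    · intro x hx y
      obtain ⟨v, w, ht, hy⟩ := theta_surj b i0 i1 i2 r H hx y
      exact ⟨v, w, (planar_tan b i0 i1 i2 r H hx v w).2 ht, hy⟩
    · intro k c
      cases k with
      | none =>
        fin_cases c
        · refine ⟨1, r + 1, fun i => if i = i0 then 2 * r + 3 else if i = i1 then r + 2 else
            if i = i2 then r + 2 else r + 1, 0, psi i0 i1 i2
            (cv (C ((r : ℂ) + 2) * X 0 ^ (r + 1) * X 1 ^ (r + 2)) (b.coord (Sum.inl 1)) +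
              cv (-(C ((r : ℂ) + 2) * X 0 ^ (r + 2) * X 1 ^ (r + 1))) (b.coord (Sum.inl 2)))
            (cv (gP r) (b.coord (Sum.inl 0)) + cv (X 0 ^ (r + 2)) (b.coord (Sum.inl 2)))
            0, ?_, ?_, ?_, ?_, ?_⟩
          · simp only [planar, a]; push_cast; ring
          · intro j; exact isHomogeneous_zero _ _ _
          · intro i
            simp only [planar, plE, a]
            split_ifs <;> push_cast <;> ring
          · refine psi_hom i0 i1 i2 ?_ ?_ ?_
            · refine add_hom (cv_hom ?_ _) (cv_hom ?_ _)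
              · have := ((isHomogeneous_C (Fin 2) ((r : ℂ) + 2)).mul
                  (isHomogeneous_X_pow (R := ℂ) (0 : Fin 2) (r + 1))).mul
                  (isHomogeneous_X_pow (R := ℂ) (1 : Fin 2) (r + 2))
                have e : 0 + (r + 1) + (r + 2) = 2 * r + 3 := by ring
                rwa [e] at this
              · have := (((isHomogeneous_C (Fin 2) ((r : ℂ) + 2)).mul
                  (isHomogeneous_X_pow (R := ℂ) (0 : Fin 2) (r + 2))).mul
                  (isHomogeneous_X_pow (R := ℂ) (1 : Fin 2) (r + 1))).neg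
                have e : 0 + (r + 2) + (r + 1) = 2 * r + 3 := by ring
                rwa [e] at this
            · exact add_hom (cv_hom (gP_hom r) _) (cv_hom (isHomogeneous_X_pow _ _) _)
            · exact zero_hom
          · intro x hx v w ht
            have e := (plTheta_none b i0 i1 i2 r hx ((planar_tan b i0 i1 i2 r H hx v w).1 ht)).1
            rw [psi_sum i0 i1 i2 H.h01 H.h02 H.h12, val_zero_dot, val_add_dot, val_add_dot,
              cv_dot, cv_dot, cv_dot, cv_dot, val_zero_dot, pow_one]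
            simp only [Fin.zero_eta]
            rw [e]
            unfold P0
            simp only [map_mul, map_neg, map_pow, eval_X, eval_C, eval_gP, co_eq]
            ring
        · refine ⟨1, r + 1, fun i => if i = i0 then 2 * r + 3 else if i = i1 then r + 2 else
            if i = i2 then r + 2 else r + 1, 0, psi i0 i1 i2
            (cv (C ((r : ℂ) + 1) * X 0 ^ r * X 1 ^ (r + 3) - X 0 ^ (2 * r + 2) * X 1)
                (b.coord (Sum.inl 1)) +
              cv (X 0 ^ (2 * r + 3) - C ((r : ℂ) + 1) * X 0 ^ (r + 1) * X 1 ^ (r + 2))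
                (b.coord (Sum.inl 2)))
            0
            (cv (gP r) (b.coord (Sum.inl 0)) + cv (X 1 * X 0 ^ (r + 1)) (b.coord (Sum.inl 1))),
            ?_, ?_, ?_, ?_, ?_⟩
          · simp only [planar, a]; push_cast; ring
          · intro j; exact isHomogeneous_zero _ _ _
          · intro i
            simp only [planar, plE, a]
            split_ifs <;> push_cast <;> ring
          · refine psi_hom i0 i1 i2 ?_ ?_ ?_
            · refine add_hom (cv_hom ?_ _) (cv_hom ?_ _)
              · refine IsHomogeneous.sub ?_ ?_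
                · have := ((isHomogeneous_C (Fin 2) ((r : ℂ) + 1)).mul
                    (isHomogeneous_X_pow (R := ℂ) (0 : Fin 2) r)).mul
                    (isHomogeneous_X_pow (R := ℂ) (1 : Fin 2) (r + 3))
                  have e : 0 + r + (r + 3) = 2 * r + 3 := by ring
                  rwa [e] at this
                · exact (isHomogeneous_X_pow _ _).mul (isHomogeneous_X _ _)
              · refine IsHomogeneous.sub (isHomogeneous_X_pow _ _) ?_
                have := ((isHomogeneous_C (Fin 2) ((r : ℂ) + 1)).mul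
                    (isHomogeneous_X_pow (R := ℂ) (0 : Fin 2) (r + 1))).mul
                    (isHomogeneous_X_pow (R := ℂ) (1 : Fin 2) (r + 2))
                have e : 0 + (r + 1) + (r + 2) = 2 * r + 3 := by ring
                rwa [e] at this
            · exact zero_hom
            · refine add_hom (cv_hom (gP_hom r) _) (cv_hom ?_ _)
              have := ((isHomogeneous_X ℂ (1 : Fin 2)).mul
                (isHomogeneous_X_pow (R := ℂ) (0 : Fin 2) (r + 1)))
              have e : 1 + (r + 1) = r + 2 := by omega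
              rw [e] at this
              exact this
          · intro x hx v w ht
            have e := (plTheta_none b i0 i1 i2 r hx ((planar_tan b i0 i1 i2 r H hx v w).1 ht)).2
            rw [psi_sum i0 i1 i2 H.h01 H.h02 H.h12, val_zero_dot, val_add_dot, val_add_dot,
              cv_dot, cv_dot, cv_dot, cv_dot, val_zero_dot, pow_one]
            simp only [Fin.mk_one]
            rw [e]
            unfold P1
            simp only [map_mul, map_neg, map_pow, map_sub, eval_X, eval_C, eval_gP, co_eq]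
            ring
      | some k =>
        fin_cases c
        · refine ⟨r + 4, 0, fun i => if i = i0 then r + 2 else if i = i1 then 1 else
            if i = i2 then 1 else 0, 0, psi i0 i1 i2
            (cv (-(X 0 * X 1 ^ (r + 1))) (b.coord (Sum.inr k)))
            (cv (X 0) (b.coord (Sum.inr k)))
            0, ?_, ?_, ?_, ?_, ?_⟩
          · simp only [planar, a]; push_cast; ring
          · intro j; exact isHomogeneous_zero _ _ _
          · intro i
            simp only [planar, plE, a]
            split_ifs <;> push_cast <;> ring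
          · refine psi_hom i0 i1 i2 ?_ ?_ ?_
            · refine cv_hom ?_ _
              have := ((isHomogeneous_X ℂ (0 : Fin 2)).mul
                (isHomogeneous_X_pow (R := ℂ) (1 : Fin 2) (r + 1))).neg
              have e : 1 + (r + 1) = r + 2 := by omega
              rw [e] at this
              exact this
            · exact cv_hom (isHomogeneous_X _ _) _
            · exact zero_hom
          · intro x hx v w ht
            have e := (plTheta_some b i0 i1 i2 r hx
              ((planar_tan b i0 i1 i2 r H hx v w).1 ht) k).1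
            rw [psi_sum i0 i1 i2 H.h01 H.h02 H.h12, val_zero_dot, cv_dot, cv_dot, val_zero_dot]
            simp only [Fin.zero_eta]
            have e' : x 0 ^ (r + 4) = x 0 * x 0 ^ (r + 3) := by ring
            rw [e', mul_assoc, e]
            simp only [map_mul, map_neg, map_pow, map_sub, eval_X, eval_C, eval_gP, co_eq]
            ring
        · refine ⟨r + 4, 0, fun i => if i = i0 then r + 2 else if i = i1 then 1 else
            if i = i2 then 1 else 0, 0, psi i0 i1 i2
            (cv (-(X 1 * X 0 ^ (r + 1))) (b.coord (Sum.inr k)))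
            0
            (cv (X 1) (b.coord (Sum.inr k))), ?_, ?_, ?_, ?_, ?_⟩
          · simp only [planar, a]; push_cast; ring
          · intro j; exact isHomogeneous_zero _ _ _
          · intro i
            simp only [planar, plE, a]
            split_ifs <;> push_cast <;> ring
          · refine psi_hom i0 i1 i2 ?_ ?_ ?_
            · refine cv_hom ?_ _
              have := ((isHomogeneous_X ℂ (1 : Fin 2)).mul
                (isHomogeneous_X_pow (R := ℂ) (0 : Fin 2) (r + 1))).neg
              have e : 1 + (r + 1) = r + 2 := by omega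
              rw [e] at this
              exact this
            · exact zero_hom
            · exact cv_hom (isHomogeneous_X _ _) _
          · intro x hx v w ht
            have e := (plTheta_some b i0 i1 i2 r hx
              ((planar_tan b i0 i1 i2 r H hx v w).1 ht) k).2
            rw [psi_sum i0 i1 i2 H.h01 H.h02 H.h12, val_zero_dot, cv_dot, cv_dot, val_zero_dot]
            simp only [Fin.mk_one]
            have e' : x 1 ^ (r + 4) = x 1 * x 1 ^ (r + 3) := by ring
            rw [e', mul_assoc, e]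
            simp only [map_mul, map_neg, map_pow, map_sub, eval_X, eval_C, eval_gP, co_eq]
            ring
  · intro k
    cases hk : eq k with
    | none => right; simp only [hk, a]; positivity
    | some j => left; simp [a, hk]

end Pool.Agent.H58.MinusOne
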