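import Pool.Agent.H58.MinusOne.Planar3

set_option linter.unusedSectionVars false
set_option linter.unusedSimpArgs false

namespace Pool.Agent.H58.MinusOne
open MvPolynomial Submodule

variable {n h : ℕ} {p : Fin h → Vec n}

/-- Any at most four of the vectors `p i` are linearly independent. For `n ≥ 3` this is a
nonempty Zariski open condition, so it holds for general points. -/
def GenPos (p : Fin h → Vec n) : Prop :=
  ∀ m ≤ 4, ∀ g : Fin m → Fin h, Function.Injective g → LinearIndependent ℂ (fun i => p (g i))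

theorem GenPos.distinct (hp : GenPos p) : DistinctPoints p := by
  constructor
  · intro i
    have := hp 1 (by norm_num) (fun _ => i) (fun a b _ => Subsingleton.elim a b)
    exact this.ne_zero 0
  · intro i j hij
    have hinj : Function.Injective ![i, j] := by
      intro a b hab
      fin_cases a <;> fin_cases b <;> simp_all
    have := hp 2 (by norm_num) ![i, j] hinj
    intro hmem
    obtain ⟨c, hc⟩ := mem_span_singleton.1 hmem
    rw [Fintype.linearIndependent_iff] at this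
    have h1 := this ![1, -c] (by
      rw [Fin.sum_univ_two]
      simp only [Matrix.cons_val_zero, Matrix.cons_val_one, one_smul, neg_smul]
      rw [← hc]; simp) 0
    simp at h1

theorem exists_plHyp (hh : 3 ≤ h) (hp : GenPos p) :
    ∃ (κ : Type) (_ : Fintype κ) (b : Module.Basis (Fin 3 ⊕ κ) ℂ (Vec n)) (i0 i1 i2 : Fin h),
      Fintype.card κ + 3 = n + 1 ∧ PlHyp b i0 i1 i2 p := by
  let i0 : Fin h := ⟨0, by omega⟩
  let i1 : Fin h := ⟨1, by omega⟩
  let i2 : Fin h := ⟨2, by omega⟩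
  have h01 : i0 ≠ i1 := by simp [i0, i1]
  have h02 : i0 ≠ i2 := by simp [i0, i2]
  have h12 : i1 ≠ i2 := by simp [i1, i2]
  have hinj : Function.Injective ![i0, i1, i2] := by
    intro a b hab
    fin_cases a <;> fin_cases b <;> simp_all
  obtain ⟨κ, inst, b, hb, hcard⟩ := exists_basis _ (hp 3 (by norm_num) ![i0, i1, i2] hinj)
  refine ⟨κ, inst, b, i0, i1, i2, hcard, h01, h02, h12, hb 0, hb 1, hb 2, ?_⟩
  intro i j0 j1 j2 hk
  have hinj4 : Function.Injective ![i0, i1, i2, i] := by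
    intro a b hab
    fin_cases a <;> fin_cases b <;> simp_all
  have hli := hp 4 le_rfl ![i0, i1, i2, i] hinj4
  rw [Fintype.linearIndependent_iff] at hli
  have h1 := hli ![co b (p i) (Sum.inl 0), co b (p i) (Sum.inl 1), co b (p i) (Sum.inl 2), -1] (by
    rw [Fin.sum_univ_four]
    apply co_ext b
    have hb0 : p i0 = b (Sum.inl 0) := (hb 0).symm
    have hb1 : p i1 = b (Sum.inl 1) := (hb 1).symm
    have hb2 : p i2 = b (Sum.inl 2) := (hb 2).symm
    rw [forall_idx]
    simp only [Matrix.cons_val_zero, Matrix.cons_val_one, Matrix.cons_val_two, Matrix.tail_cons,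
      Matrix.head_cons, Matrix.cons_val, co_add, co_smul, hb0, hb1, hb2]
    refine ⟨?_, ?_, ?_, fun k => ?_⟩
    · simp [co, Finsupp.single_apply]
    · simp [co, Finsupp.single_apply]
    · simp [co, Finsupp.single_apply]
    · rw [hk k]
      simp [co, Finsupp.single_apply]) 3
  simp at h1

section
variable {κ : Type} [Fintype κ] (b : Module.Basis (Fin 3 ⊕ κ) ℂ (Vec n)) (i0 i1 i2 : Fin h)

theorem planar_inj (H : PlHyp b i0 i1 i2 p) {r r' : ℕ}
    (hC : (planar b i0 i1 i2 r H).curve = (planar b i0 i1 i2 r' H).curve) : r = r' := by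
  have hne : (![1, 2] : Fin 2 → ℂ) ≠ 0 := fun h0 => by simpa using congrFun h0 0
  have hmem : (planar b i0 i1 i2 r H).pt ![1, 2] ∈ (planar b i0 i1 i2 r H).curve :=
    ⟨_, hne, rfl⟩
  rw [hC] at hmem
  obtain ⟨y, hy, hpt⟩ := hmem
  have h1 : span ℂ {val (plF b r) ![1, 2]} = span ℂ {val (plF b r') y} := congrArg Prod.fst hpt
  have h2 := congrFun (congrArg Prod.snd hpt) i0
  simp only [Emb.pt, planar] at h2
  rw [plG_0, ← H.hb0, plG_0] at h2
  have h3 : val (plG0 b) y ∈ span ℂ {b (Sum.inl 0), val (plG0 b) ![1, 2]} := by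
    rw [h2]; exact subset_span (by simp)
  rw [S_G0] at h3
  obtain ⟨-, c1, c2, -⟩ := co_val_plG0 b y
  rw [c1, c2] at h3
  obtain ⟨lam, m1, m2, -⟩ := h3
  have h4 : val (plF b r) ![1, 2] ∈ span ℂ {val (plF b r') y} := by
    rw [← h1]; exact subset_span (by simp)
  rw [S_F] at h4
  obtain ⟨f0, f1, f2, -⟩ := co_val_plF b r ![1, 2]
  rw [f0, f1, f2] at h4
  obtain ⟨μ, a0, a1, -, -⟩ := h4
  simp only [Matrix.cons_val_zero, Matrix.cons_val_one, mul_one] at m1 m2 a0 a1
  rw [m1, m2] at a0 a1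
  have e1 : μ * lam ^ (r' + 3) = 1 := by
    have : lam ^ (r' + 3) = lam ^ (r' + 2) * lam := by ring
    rw [this]
    have e : (1 : ℂ) ^ (r + 2) = 1 := one_pow _
    linear_combination (1 / 2) * a0 + e
  have e2 : (1 : ℂ) + 2 ^ (r + 2) = 1 + 2 ^ (r' + 2) := by
    have e : (1 : ℂ) ^ (r + 2) = 1 := one_pow _
    rw [e] at a1
    have e3 : (lam * 2) ^ (r' + 2) = lam ^ (r' + 2) * 2 ^ (r' + 2) := mul_pow _ _ _
    rw [e3] at a1
    have : lam ^ (r' + 3) = lam ^ (r' + 2) * lam := by ring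
    rw [this] at e1
    linear_combination a1 + (1 + 2 ^ (r' + 2)) * e1
  have e3 : ((2 ^ (r + 2) : ℕ) : ℂ) = ((2 ^ (r' + 2) : ℕ) : ℂ) := by
    push_cast
    linear_combination e2
  have e4 : 2 ^ (r + 2) = 2 ^ (r' + 2) := Nat.cast_injective e3
  have := Nat.pow_right_injective (le_refl 2) e4
  omega

theorem planar_noncontr (H : PlHyp b i0 i1 i2 p) (r : ℕ) :
    ¬ ∃ L, ∀ q ∈ (planar b i0 i1 i2 r H).curve, q.1 = L := by
  rintro ⟨L, hL⟩
  have hne : (![1, 0] : Fin 2 → ℂ) ≠ 0 := fun h0 => by simpa using congrFun h0 0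
  have hne' : (![0, 1] : Fin 2 → ℂ) ≠ 0 := fun h0 => by simpa using congrFun h0 1
  have e1 : span ℂ {val (plF b r) ![1, 0]} = L := hL _ ⟨_, hne, rfl⟩
  have e2 : span ℂ {val (plF b r) ![0, 1]} = L := hL _ ⟨_, hne', rfl⟩
  have h4 : val (plF b r) ![1, 0] ∈ span ℂ {val (plF b r) ![0, 1]} := by
    rw [e2, ← e1]; exact subset_span (by simp)
  rw [S_F] at h4
  obtain ⟨f0, f1, f2, -⟩ := co_val_plF b r ![1, 0]
  rw [f1] at h4
  obtain ⟨μ, -, a1, -, -⟩ := h4
  simp at a1

end

theorem noncontracted_infinite (hn : 3 ≤ n) (hh : 3 ≤ h) (hp : GenPos p) :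
    {C | IsMinusOneCurve p C ∧ ¬ ∃ L, ∀ q ∈ C, q.1 = L}.Infinite := by
  obtain ⟨κ, inst, b, i0, i1, i2, hcard, H⟩ := exists_plHyp hh hp
  refine Set.infinite_of_injective_forall_mem
    (f := fun r => (planar b i0 i1 i2 r H).curve) ?_ ?_
  · intro r r' hrr
    exact planar_inj b i0 i1 i2 H hrr
  · intro r
    exact ⟨⟨curve_subset hp.distinct _, _, planar_minusOne b i0 i1 i2 r hn hcard H, rfl⟩,
      planar_noncontr b i0 i1 i2 H r⟩

theorem classes_infinite (hn : 3 ≤ n) (hh : 3 ≤ h) (hp : GenPos p) :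
    {c : ℕ × (Fin h → ℕ) | ∃ f : Emb p, f.IsMinusOne ∧ (f.d, f.e) = c}.Infinite := by
  obtain ⟨κ, inst, b, i0, i1, i2, hcard, H⟩ := exists_plHyp hh hp
  refine Set.infinite_of_injective_forall_mem
    (f := fun r => ((planar b i0 i1 i2 r H).d, (planar b i0 i1 i2 r H).e)) ?_ ?_
  · intro r r' hrr
    have := congrArg Prod.fst hrr
    simp only [planar] at this
    omega
  · intro r
    exact ⟨_, planar_minusOne b i0 i1 i2 r hn hcard H, rfl⟩

end Pool.Agent.H58.MinusOne
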