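import Pool.Agent.H58.MinusOne.Forms

set_option linter.unusedSectionVars false
set_option linter.unusedSimpArgs false

namespace Pool.Agent.H58.MinusOne
open MvPolynomial Submodule

variable {n h : ℕ} {p : Fin h → Vec n}

/-- a linear functional applied to a vector of polynomials -/
noncomputable def ap (l : Vec n →ₗ[ℂ] ℂ) (F : Fin (n + 1) → Poly2) : Poly2 :=
  ∑ j, C (l (Pi.single j 1)) * F j

theorem lin_eq (l : Vec n →ₗ[ℂ] ℂ) (v : Vec n) : l v = ∑ j, l (Pi.single j 1) * v j := by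
  conv_lhs => rw [← Finset.univ_sum_single v]
  rw [map_sum]
  refine Finset.sum_congr rfl fun j _ => ?_
  rw [mul_comm, ← smul_eq_mul, ← map_smul]
  congr 1
  funext k
  by_cases h : k = j
  · subst h; simp
  · simp [h]

theorem eval_ap (l : Vec n →ₗ[ℂ] ℂ) (F : Fin (n + 1) → Poly2) (x) :
    eval x (ap l F) = l (val F x) := by
  rw [lin_eq, ap, map_sum]
  simp [val]

theorem D_C_mul (a : ℂ) (q : Poly2) (x u) : D (C a * q) x u = a * D q x u := by
  rw [D_mul, D_C, eval_C, zero_mul, zero_add]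

theorem D_sum {ι : Type*} (s : Finset ι) (q : ι → Poly2) (x u) :
    D (∑ i ∈ s, q i) x u = ∑ i ∈ s, D (q i) x u := by
  classical
  induction s using Finset.induction_on with
  | empty => simp [D]
  | insert a s ha ih => rw [Finset.sum_insert ha, Finset.sum_insert ha, D_add, ih]

theorem D_ap (l : Vec n →ₗ[ℂ] ℂ) (F : Fin (n + 1) → Poly2) (x u) :
    D (ap l F) x u = l (der F x u) := by
  rw [lin_eq, ap, D_sum]
  refine Finset.sum_congr rfl fun j _ => ?_
  rw [D_C_mul]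
  rfl

theorem ap_hom (l : Vec n →ₗ[ℂ] ℂ) {F : Fin (n + 1) → Poly2} {d : ℕ}
    (hF : ∀ j, (F j).IsHomogeneous d) : (ap l F).IsHomogeneous d := by
  refine IsHomogeneous.sum _ _ _ fun j _ => ?_
  have := (isHomogeneous_C (Fin 2) (l (Pi.single j 1))).mul (hF j)
  rwa [zero_add] at this

/-- the coefficient `c` of the point `F x` on the line `M i` -/
theorem Emb.exists_c (f : Emb p) {x : Fin 2 → ℂ} (hx : x ≠ 0) (i : Fin h) :
    ∃ c : ℂ, val f.F x - c • val (f.G i) x ∈ span ℂ {p i} := by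
  obtain ⟨α, β, hab⟩ := mem_span_pair.1 (f.mem i x hx)
  refine ⟨β, mem_span_singleton.2 ⟨α, ?_⟩⟩
  rw [← hab]; abel

theorem Emb.c_unique (f : Emb p) {x : Fin 2 → ℂ} (hx : x ≠ 0) (i : Fin h) {c c' : ℂ}
    (h1 : val f.F x - c • val (f.G i) x ∈ span ℂ {p i})
    (h2 : val f.F x - c' • val (f.G i) x ∈ span ℂ {p i}) : c = c' := by
  by_contra hne
  have h3 := sub_mem h2 h1
  have h4 : val f.F x - c' • val (f.G i) x - (val f.F x - c • val (f.G i) x) =
      (c - c') • val (f.G i) x := by rw [sub_smul]; abel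
  rw [h4] at h3
  have h5 := (span ℂ {p i}).smul_mem (c - c')⁻¹ h3
  rw [smul_smul, inv_mul_cancel₀ (sub_ne_zero.2 hne), one_smul] at h5
  exact f.G_ne i x hx h5

theorem Emb.Tan.sub_smul {f : Emb p} {x : Fin 2 → ℂ} (hx : x ≠ 0) {v v' : Vec n}
    {w w' : Fin h → Vec n} (h1 : f.Tan x v w) (h2 : f.Tan x v' w') (β : ℂ) :
    f.Tan x (v - β • v') (fun i => w i - β • w' i) := by
  intro i
  obtain ⟨c, a1, a2⟩ := h1 i
  obtain ⟨c', b1, b2⟩ := h2 i
  have := f.c_unique hx i b1 a1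
  subst this
  refine ⟨c', a1, ?_⟩
  have h3 := sub_mem a2 ((span ℂ {p i, val (f.G i) x}).smul_mem β b2)
  have h4 : v - c' • w i - β • (v' - c' • w' i) =
      v - β • v' - c' • (w i - β • w' i) := by
    rw [smul_sub, smul_sub, smul_smul, smul_smul, mul_comm β c']; abel
  rwa [h4] at h3

/-- zero derivative direction -/
theorem der_zero_dir (F : Fin (n + 1) → Poly2) (x) : der F x 0 = 0 := by
  funext j; simp [der]

theorem Emb.nul_of {f : Emb p} {x : Fin 2 → ℂ} {v : Vec n} {w : Fin h → Vec n}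
    (h1 : v ∈ span ℂ {val f.F x}) (h2 : ∀ i, w i ∈ span ℂ {p i, val (f.G i) x}) :
    f.Nul x v w := by
  refine ⟨0, ?_, fun i => ?_⟩
  · rw [der_zero_dir, sub_zero]; exact h1
  · rw [der_zero_dir, sub_zero]; exact h2 i

/-- The `k`-th component of the isomorphism with `⊕ O(a k)`. -/
structure Comp (f : Emb p) (a : ℤ) where
  θ : (Fin 2 → ℂ) → Vec n → (Fin h → Vec n) → ℂ
  nul : ∀ x, x ≠ 0 → ∀ v w, f.Tan x v w → f.Nul x v w → θ x v w = 0
  surj : ∀ x, x ≠ 0 → ∃ v w, f.Tan x v w ∧ θ x v w ≠ 0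
  rep : ∀ (c : Fin 2), ∃ (N D : ℕ) (E : Fin h → ℕ)
      (φ : Fin (n + 1) → Poly2) (ψ : Fin h → Fin (n + 1) → Poly2),
      (D : ℤ) + f.d = N + a ∧ (∀ j, (φ j).IsHomogeneous D) ∧
      (∀ i, (E i : ℤ) + f.e i = N + a) ∧ (∀ i j, (ψ i j).IsHomogeneous (E i)) ∧
      ∀ x, x ≠ 0 → ∀ v w, f.Tan x v w →
        x c ^ N * θ x v w = val φ x ⬝ᵥ v + ∑ i, val (ψ i) x ⬝ᵥ w i

theorem Emb.IsMinusOne.comp {f : Emb p} (hf : f.IsMinusOne) : Nonempty (Comp f (-1)) := by
  obtain ⟨a, ⟨θ, h1, h2, h3⟩, -, k, hk⟩ := hf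
  refine ⟨⟨fun x v w => θ x v w k, ?_, ?_, ?_⟩⟩
  · intro x hx v w ht hn
    have := (h1 x hx v w ht).2 hn
    rw [this]; rfl
  · intro x hx
    obtain ⟨v, w, ht, hy⟩ := h2 x hx (fun _ => 1)
    refine ⟨v, w, ht, ?_⟩
    rw [hy]; exact one_ne_zero
  · intro c
    have := h3 k c
    rw [hk] at this
    exact this

variable {f : Emb p} {a : ℤ}

theorem Comp.sub_smul (K : Comp f a) {x : Fin 2 → ℂ} (hx : x ≠ 0) {v v' : Vec n}
    {w w' : Fin h → Vec n} (h1 : f.Tan x v w) (h2 : f.Tan x v' w') (β : ℂ) :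
    K.θ x (v - β • v') (fun i => w i - β • w' i) = K.θ x v w - β * K.θ x v' w' := by
  obtain ⟨c, hc⟩ : ∃ c, x c ≠ 0 := by
    rcases ne_zero_cases hx with h0 | h0
    · exact ⟨0, h0⟩
    · exact ⟨1, h0⟩
  obtain ⟨N, D, E, φ, ψ, -, -, -, -, hr⟩ := K.rep c
  have e1 := hr x hx v w h1
  have e2 := hr x hx v' w' h2
  have e3 := hr x hx _ _ (Emb.Tan.sub_smul hx h1 h2 β)
  apply mul_left_cancel₀ (pow_ne_zero N hc)
  rw [e3]
  have e4 : x c ^ N * (K.θ x v w - β * K.θ x v' w') =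
      x c ^ N * K.θ x v w - β * (x c ^ N * K.θ x v' w') := by ring
  rw [e4, e1, e2]
  simp only [dotProduct_sub, dotProduct_smul, smul_eq_mul, Finset.sum_sub_distrib,
    mul_add, Finset.mul_sum]
  ring

/-- The data of a section of the tangent bundle along the curve, of degree `m`. -/
structure Sec (f : Emb p) (m : ℤ) where
  V : Fin (n + 1) → Poly2
  W : Fin h → Fin (n + 1) → Poly2
  hV : ∀ j, ZHom (V j) (f.d + m)
  hW : ∀ i j, ZHom (W i j) (f.e i + m)
  tan : ∀ x, x ≠ 0 → f.Tan x (val V x) (fun i => val (W i) x)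

theorem dot_eval (A B : Fin (n + 1) → Poly2) (x) :
    eval x (∑ j, A j * B j) = val A x ⬝ᵥ val B x := by
  simp [val, dotProduct]

theorem Comp.regular (K : Comp f a) {m : ℤ} (S : Sec f m) :
    ∃ (N : Fin 2 → ℕ) (P : Fin 2 → Poly2), (∀ c, ZHom (P c) (N c + (a + m))) ∧
      ∀ c x, x ≠ 0 → x c ^ N c * K.θ x (val S.V x) (fun i => val (S.W i) x) = eval x (P c) := by
  choose N D E φ ψ h1 h2 h3 h4 h5 using K.rep
  refine ⟨N, fun c => ∑ j, φ c j * S.V j + ∑ i, ∑ j, ψ c i j * S.W i j, ?_, ?_⟩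
  · intro c
    refine ZHom.add (ZHom.sum _ _ fun j _ => ?_)
      (ZHom.sum _ _ fun i _ => ZHom.sum _ _ fun j _ => ?_)
    · have := (ZHom.of (h2 c j) rfl).mul (S.hV j)
      have e : (D c : ℤ) + (f.d + m) = N c + (a + m) := by have := h1 c; omega
      rwa [e] at this
    · have := (ZHom.of (h4 c i j) rfl).mul (S.hW i j)
      have e : (E c i : ℤ) + (f.e i + m) = N c + (a + m) := by have := h3 c i; omega
      rwa [e] at this
  · intro c x hx
    rw [h5 c x hx _ _ (S.tan x hx), map_add, dot_eval, map_sum]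
    congr 1
    exact Finset.sum_congr rfl fun i _ => (dot_eval _ _ _).symm

theorem Comp.sec_zero (K : Comp f a) {m : ℤ} (S : Sec f m) (hm : a + m < 0) :
    ∀ x, x ≠ 0 → K.θ x (val S.V x) (fun i => val (S.W i) x) = 0 := by
  obtain ⟨N, P, h1, h2⟩ := K.regular S
  exact regular_zero hm h1 h2

theorem Comp.sec_root (K : Comp f a) {m : ℤ} (S : Sec f m) (hm : 0 < a + m) :
    ∃ x, x ≠ 0 ∧ K.θ x (val S.V x) (fun i => val (S.W i) x) = 0 := by
  obtain ⟨N, P, h1, h2⟩ := K.regular S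
  exact regular_root hm h1 h2

/-- the section given by the linear vector field `w ↦ l w • v` -/
noncomputable def fieldSec (f : Emb p) (l : Vec n →ₗ[ℂ] ℂ) (hl : ∀ i, l (p i) = 0) (v : Vec n) :
    Sec f 0 where
  V := sv (ap l f.F) v
  W := fun i => sv (ap l (f.G i)) v
  hV := fun j => ZHom.of (sv_hom (ap_hom l f.homF) v j) (by simp)
  hW := fun i j => ZHom.of (sv_hom (ap_hom l (f.homG i)) v j) (by simp)
  tan := by
    intro x hx i
    obtain ⟨c, hc⟩ := f.exists_c hx i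
    refine ⟨c, hc, ?_⟩
    change val (sv (ap l f.F) v) x - c • val (sv (ap l (f.G i)) v) x ∈ _
    rw [val_sv, val_sv, eval_ap, eval_ap, smul_smul]
    obtain ⟨α, hα⟩ := mem_span_singleton.1 hc
    have h1 := congrArg l hα
    rw [map_smul, hl, map_sub, map_smul, smul_zero, smul_eq_mul] at h1
    rw [← _root_.sub_smul, ← h1, zero_smul]
    exact zero_mem _

/-- The image of a (-1)-curve in `P^n` lies in the linear span of the points. -/
theorem Comp.F_mem (K : Comp f (-1)) {x : Fin 2 → ℂ} (hx : x ≠ 0) :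
    val f.F x ∈ span ℂ (Set.range p) := by
  by_contra hnot
  obtain ⟨l, hl1, hl2⟩ := Submodule.exists_dual_map_eq_bot_of_notMem hnot inferInstance
  have hl0 : ∀ i, l (p i) = 0 := by
    intro i
    have : l (p i) ∈ (span ℂ (Set.range p)).map l := mem_map_of_mem (subset_span ⟨i, rfl⟩)
    rw [hl2] at this
    exact (mem_bot ℂ).1 this
  obtain ⟨v, w, ht, hne⟩ := K.surj x hx
  apply hne
  set lam := l (val f.F x) with hlam
  let S := fieldSec f l hl0 (lam⁻¹ • v)
  have hS := K.sec_zero S (by norm_num) x hx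
  have hSV : val S.V x = v := by
    change val (sv (ap l f.F) (lam⁻¹ • v)) x = v
    rw [val_sv, eval_ap, smul_smul, ← hlam, mul_inv_cancel₀ hl1, one_smul]
  have hSW : ∀ i, val (S.W i) x = (l (val (f.G i) x) * lam⁻¹) • v := by
    intro i
    change val (sv (ap l (f.G i)) (lam⁻¹ • v)) x = _
    rw [val_sv, eval_ap, smul_smul]
  have hd := K.sub_smul hx ht (S.tan x hx) 1
  rw [hS, mul_zero, sub_zero] at hd
  rw [← hd]
  refine K.nul x hx _ _ (Emb.Tan.sub_smul hx ht (S.tan x hx) 1) (Emb.nul_of ?_ ?_)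
  · rw [hSV, one_smul, sub_self]
    exact zero_mem _
  · intro i
    rw [one_smul, hSW]
    obtain ⟨c, hc1, hc2⟩ := ht i
    obtain ⟨α, hα⟩ := mem_span_singleton.1 hc1
    have h1 := congrArg l hα
    rw [map_smul, hl0, map_sub, map_smul, smul_zero, smul_eq_mul] at h1
    have h2 : c * l (val (f.G i) x) = lam := by rw [hlam]; linear_combination h1
    have hc0 : c ≠ 0 := by
      rintro rfl
      rw [zero_mul] at h2
      exact hl1 h2.symm
    have h3 : l (val (f.G i) x) * lam⁻¹ = c⁻¹ := by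
      rw [← h2]
      have : l (val (f.G i) x) ≠ 0 := by
        intro h0
        rw [h0, mul_zero] at h2
        exact hl1 h2.symm
      field_simp
    rw [h3]
    have h4 := (span ℂ {p i, val (f.G i) x}).smul_mem (-c⁻¹) hc2
    have h5 : -c⁻¹ • (v - c • w i) = w i - c⁻¹ • v := by
      rw [smul_sub, smul_smul, neg_mul, inv_mul_cancel₀ hc0, neg_smul, neg_smul, one_smul]
      abel
    rwa [h5] at h4

end Pool.Agent.H58.MinusOne
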